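import Pool.Agent.H31.SG.Solid

/-!
The solution near the origin: a series `∑ β k j_k (r) P_k (x)` whose coefficients satisfy
`|β k j_k (R)| ≤ M` at some radius `R ≥ 1000` is twice continuously differentiable on the ball of
radius two, also at the origin, and satisfies `Δ u + u = 0` there.
-/

set_option autoImplicit false
open Filter Topology Set Polynomial

namespace Pool.Agent.H31.SG

open Pool.Agent.H68.SC (jl djl)
open Pool.Agent.H27.Leg (P)

section gen
variable {E F : Type*} [NormedAddCommGroup E] [NormedSpace ℝ E] [NormedAddCommGroup F]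
  [NormedSpace ℝ F]

lemma gen_smul {g : E → F} {g' : E →L[ℝ] F} {X : E} (h : HasFDerivAt g g' X) (c : ℝ) :
    HasFDerivAt (fun Y => c • g Y) (c • g') X := h.fun_const_smul c

lemma gen_add {g h : E → F} {g' h' : E →L[ℝ] F} {X : E} (h1 : HasFDerivAt g g' X)
    (h2 : HasFDerivAt h h' X) : HasFDerivAt (fun Y => g Y + h Y) (g' + h') X := h1.add h2

end gen

/-- Second derivatives of a constant multiple. -/
lemma dd_const_mul {p : E3 → ℝ} (hp : ContDiff ℝ 2 p) (c : ℝ) (X v : E3) :
    fderiv ℝ (fderiv ℝ (fun Y => c * p Y)) X v v = c * fderiv ℝ (fderiv ℝ p) X v v := by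
  have h1 : fderiv ℝ (fun Y => c * p Y) = fun Y => c • fderiv ℝ p Y := by
    ext1 Y
    exact (gen_smul (hasFDerivAt_two (hp.contDiffAt (x := Y))).1 c).fderiv
  have h2 := gen_smul (hasFDerivAt_two (hp.contDiffAt (x := X))).2 c
  rw [h1, h2.fderiv]
  rfl

lemma continuous_dd {p : E3 → ℝ} (hp : ContDiff ℝ 2 p) (v : E3) :
    Continuous (fun X => fderiv ℝ (fderiv ℝ p) X v v) := by
  have h1 : ContDiff ℝ 1 (fderiv ℝ p) := hp.fderiv_right (by norm_num)
  have h2 : Continuous (fderiv ℝ (fderiv ℝ p)) := h1.continuous_fderiv (by norm_num)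
  exact (h2.clm_apply continuous_const).clm_apply continuous_const

lemma contDiff_psi (k : ℕ) : ContDiff ℝ 2 (psi k) := (cb_psi k).cd

/-- The Helmholtz equation for `psi k` everywhere. -/
theorem lap_psi (k : ℕ) (X : E3) :
    (∑ i : Fin 3, fderiv ℝ (fderiv ℝ (psi k)) X (EuclideanSpace.single i (1 : ℝ))
      (EuclideanSpace.single i (1 : ℝ))) + psi k X = 0 := by
  have hc : Continuous (fun X : E3 =>
      (∑ i : Fin 3, fderiv ℝ (fderiv ℝ (psi k)) X (EuclideanSpace.single i (1 : ℝ))
      (EuclideanSpace.single i (1 : ℝ))) + psi k X) :=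
    (continuous_finsetSum _ fun i _ => continuous_dd (contDiff_psi k) _).add
      (contDiff_psi k).continuous
  have hd : Dense ({0}ᶜ : Set E3) := dense_compl_singleton 0
  have := hc.ext_on hd continuous_const (fun Y hY => lap_psi_ne k hY)
  exact congrFun this X

/-- The series. -/
noncomputable def useries (β : ℕ → ℝ) (X : E3) : ℝ := ∑' k, β k * psi k X

section main
variable {β : ℕ → ℝ}

lemma cb_term (β : ℕ → ℝ) (k : ℕ) : CB (fun X => β k * psi k X) (|β k| * (192 * 17 ^ k / df k)) :=
  (cb_psi k).const_mul (β k)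

lemma summable_bound {M : ℝ} (hβ : ∀ k, |β k| ≤ M * df k * (1 / 1000) ^ k) :
    Summable (fun k => |β k| * (192 * 17 ^ k / df k)) := by
  have hs : Summable (fun k : ℕ => 192 * M * (17 / 1000 : ℝ) ^ k) :=
    (summable_geometric_of_lt_one (by norm_num) (by norm_num)).mul_left _
  refine Summable.of_nonneg_of_le (fun k => ?_) (fun k => ?_) hs
  · have := df_pos k
    positivity
  · have h0 := df_pos k
    have h1 : 0 ≤ 192 * (17 : ℝ) ^ k / df k := by positivity
    calc |β k| * (192 * 17 ^ k / df k) ≤ (M * df k * (1 / 1000) ^ k) * (192 * 17 ^ k / df k) :=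
          mul_le_mul_of_nonneg_right (hβ k) h1
      _ = 192 * M * ((1 / 1000) ^ k * 17 ^ k) := by
          field_simp
      _ = 192 * M * (17 / 1000 : ℝ) ^ k := by
          rw [← mul_pow]
          norm_num

/-- The coefficient bound from the values at one radius. -/
lemma coeff_bound {R M : ℝ} (hR : 1000 ≤ R) (hβ : ∀ k, |β k * jl k R| ≤ M) :
    ∃ M2, ∀ k, |β k| ≤ M2 * df k * (1 / 1000) ^ k := by
  have hR0 : 0 < R := by linarith
  have hM : 0 ≤ M := (abs_nonneg _).trans (hβ 0)
  set K := ⌈R ^ 2⌉₊ with hK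
  set T := ∑ j ∈ Finset.range K, |β j| * 1000 ^ j / df j with hT
  have hT0 : ∀ j, 0 ≤ |β j| * 1000 ^ j / df j := fun j => by
    have := df_pos j
    positivity
  have hTn : 0 ≤ T := Finset.sum_nonneg fun j _ => hT0 j
  refine ⟨2 * M + T, fun k => ?_⟩
  have hd := df_pos k
  by_cases hk : k < K
  · have h1 : |β k| * 1000 ^ k / df k ≤ T :=
      Finset.single_le_sum (f := fun j => |β j| * 1000 ^ j / df j) (fun j _ => hT0 j)
        (Finset.mem_range.2 hk)
    have h2 : |β k| = (|β k| * 1000 ^ k / df k) * (df k * (1 / 1000) ^ k) := by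
      rw [one_div, inv_pow]
      field_simp
    rw [h2]
    have h3 : 0 ≤ df k * (1 / 1000 : ℝ) ^ k := by positivity
    calc (|β k| * 1000 ^ k / df k) * (df k * (1 / 1000) ^ k)
        ≤ (2 * M + T) * (df k * (1 / 1000) ^ k) :=
          mul_le_mul_of_nonneg_right (by linarith) h3
      _ = (2 * M + T) * df k * (1 / 1000) ^ k := by ring
  · have hk' : K ≤ k := not_lt.1 hk
    have h1 : R ^ 2 ≤ (k : ℝ) := (Nat.le_ceil _).trans (by exact_mod_cast hk')
    have h2 := gk_lower k (w := R ^ 2) (by positivity) (by linarith)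
    have h3 : R ^ k / (2 * df k) ≤ jl k R := by
      rw [jl_eq k hR0]
      calc R ^ k / (2 * df k) = R ^ k * (1 / (2 * df k)) := by ring
        _ ≤ R ^ k * gk k (R ^ 2) := mul_le_mul_of_nonneg_left h2 (by positivity)
    have h4 : 0 < R ^ k / (2 * df k) := by positivity
    have h5 : |β k| * (R ^ k / (2 * df k)) ≤ M := by
      have := hβ k
      rw [abs_mul, abs_of_pos (h4.trans_le h3)] at this
      exact (mul_le_mul_of_nonneg_left h3 (abs_nonneg _)).trans this
    have h6 : (1000 : ℝ) ^ k ≤ R ^ k := pow_le_pow_left₀ (by norm_num) hR k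
    have h7 : |β k| * (1000 ^ k / (2 * df k)) ≤ M := by
      refine le_trans ?_ h5
      have : (1000 : ℝ) ^ k / (2 * df k) ≤ R ^ k / (2 * df k) := by gcongr
      exact mul_le_mul_of_nonneg_left this (abs_nonneg _)
    have h8 : |β k| = (|β k| * (1000 ^ k / (2 * df k))) * (2 * df k * (1 / 1000) ^ k) := by
      rw [one_div, inv_pow]
      field_simp
    have h9 : 0 ≤ 2 * df k * (1 / 1000 : ℝ) ^ k := by positivity
    have h10 : 0 ≤ T * (df k * (1 / 1000 : ℝ) ^ k) := by positivity
    rw [h8]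
    calc (|β k| * (1000 ^ k / (2 * df k))) * (2 * df k * (1 / 1000) ^ k)
        ≤ M * (2 * df k * (1 / 1000) ^ k) := mul_le_mul_of_nonneg_right h7 h9
      _ ≤ M * (2 * df k * (1 / 1000) ^ k) + T * (df k * (1 / 1000 : ℝ) ^ k) := by linarith
      _ = (2 * M + T) * df k * (1 / 1000) ^ k := by ring

/-- The solution near the origin. -/
theorem interior {R M : ℝ} (hR : 1000 ≤ R) (hβ : ∀ k, |β k * jl k R| ≤ M) :
    ContDiffOn ℝ 2 (useries β) (Metric.ball 0 2) ∧
    (∀ X ∈ Metric.ball (0 : E3) 2,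
      (∑ i : Fin 3, fderiv ℝ (fderiv ℝ (useries β)) X (EuclideanSpace.single i (1 : ℝ))
        (EuclideanSpace.single i (1 : ℝ))) + useries β X = 0) ∧
    (∀ X ∈ Metric.ball (0 : E3) 2, Summable fun k => β k * psi k X) ∧
    (∀ X : E3, X ≠ 0 → useries β X = ∑' k, β k * (jl k ‖X‖ * (P k).eval (xx X))) := by
  obtain ⟨M2, hM2⟩ := coeff_bound hR hβ
  have hs := summable_bound hM2
  refine ⟨series_c2 (cb_term β) hs, fun X hX => ?_, fun X hX => ser_sum0 (cb_term β) hs hX,
    fun X hX => ?_⟩
  · have h0 : HasSum (fun k => β k * psi k X) (useries β X) :=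
      (ser_sum0 (cb_term β) hs hX).hasSum
    have h1 : HasSum (fun k => ∑ i : Fin 3, fderiv ℝ (fderiv ℝ (fun Y => β k * psi k Y)) X
        (EuclideanSpace.single i (1 : ℝ)) (EuclideanSpace.single i (1 : ℝ)))
        (∑ i : Fin 3, fderiv ℝ (fderiv ℝ (useries β)) X (EuclideanSpace.single i (1 : ℝ))
          (EuclideanSpace.single i (1 : ℝ))) :=
      hasSum_sum fun i _ => series_dd (cb_term β) hs hX (EuclideanSpace.single i (1 : ℝ))
    have h2 := h1.add h0
    have h3 : (fun k => (∑ i : Fin 3, fderiv ℝ (fderiv ℝ (fun Y => β k * psi k Y)) X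
        (EuclideanSpace.single i (1 : ℝ)) (EuclideanSpace.single i (1 : ℝ))) +
        β k * psi k X) = fun _ => (0 : ℝ) := by
      ext k
      have h4 : ∀ i : Fin 3, fderiv ℝ (fderiv ℝ (fun Y => β k * psi k Y)) X
          (EuclideanSpace.single i (1 : ℝ)) (EuclideanSpace.single i (1 : ℝ)) =
          β k * fderiv ℝ (fderiv ℝ (psi k)) X (EuclideanSpace.single i (1 : ℝ))
            (EuclideanSpace.single i (1 : ℝ)) := fun i =>
        dd_const_mul (contDiff_psi k) (β k) X _
      simp only [h4]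
      rw [← Finset.mul_sum, ← mul_add, lap_psi, mul_zero]
    rw [h3] at h2
    exact h2.unique hasSum_zero
  · unfold useries
    refine tsum_congr fun k => ?_
    rw [psi_eq k hX]

end main

end Pool.Agent.H31.SG
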