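import Pool.Agent.H31.SG.Lap

/-!
The axially symmetric domain `D = {X : ‖X‖ < R (X₂ / ‖X‖)}`: defining function, frontier,
boundedness, connectedness, and the fact that it is not a ball when `R` is even and not constant.
-/

set_option autoImplicit false
open Filter Topology Set

namespace Pool.Agent.H31.SG

/-- The domain with radial function `R`. -/
def Dom (R : ℝ → ℝ) : Set E3 := {X | rr X < R (xx X)}

lemma rr_nonneg (X : E3) : 0 ≤ rr X := norm_nonneg X

lemma rr_pos {X : E3} (hX : X ≠ 0) : 0 < rr X := norm_pos_iff.2 hX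

lemma xx_mem (X : E3) : xx X ∈ Icc (-1 : ℝ) 1 := by
  have h : |X 2| ≤ ‖X‖ := by
    simpa using PiLp.norm_apply_le X 2
  rw [mem_Icc, ← abs_le]
  unfold xx
  rw [abs_div, abs_norm]
  exact div_le_one_of_le₀ h (norm_nonneg _)

lemma rr_smul {s : ℝ} (hs : 0 ≤ s) (X : E3) : rr (s • X) = s * rr X := by
  unfold rr
  rw [norm_smul, Real.norm_of_nonneg hs]

lemma xx_smul {s : ℝ} (hs : 0 < s) (X : E3) : xx (s • X) = xx X := by
  unfold xx
  rw [norm_smul, Real.norm_of_nonneg hs.le]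
  simp only [PiLp.smul_apply, smul_eq_mul]
  rw [mul_div_mul_left _ _ hs.ne']

lemma xx_neg (X : E3) : xx (-X) = - xx X := by
  unfold xx
  simp [neg_div]

lemma rr_neg (X : E3) : rr (-X) = rr X := norm_neg X

/-- Hypotheses on the radial function. -/
structure RadFun (R : ℝ → ℝ) (r1 ξ : ℝ) : Prop where
  r1_pos : 0 < r1
  xi : 1 < ξ
  smooth : ContDiffOn ℝ 2 R (Ioo (-ξ) ξ)
  lt : ∀ x ∈ Icc (-1 : ℝ) 1, r1 < R x
  even : ∀ x ∈ Icc (-1 : ℝ) 1, R (-x) = R x
  nonconst : ∃ x ∈ Icc (-1 : ℝ) 1, R x ≠ R 1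

variable {R : ℝ → ℝ} {r1 ξ : ℝ}

lemma RadFun.sub (h : RadFun R r1 ξ) : Icc (-1 : ℝ) 1 ⊆ Ioo (-ξ) ξ := by
  intro x hx
  exact ⟨by linarith [hx.1, h.xi], by linarith [hx.2, h.xi]⟩

lemma RadFun.cont (h : RadFun R r1 ξ) : ContinuousOn R (Icc (-1) 1) :=
  h.smooth.continuousOn.mono h.sub

lemma RadFun.contDiffAt (h : RadFun R r1 ξ) {x : ℝ} (hx : x ∈ Icc (-1 : ℝ) 1) :
    ContDiffAt ℝ 2 R x :=
  h.smooth.contDiffAt (Ioo_mem_nhds (h.sub hx).1 (h.sub hx).2)

lemma RadFun.comp_xx (h : RadFun R r1 ξ) {X : E3} (hX : X ≠ 0) :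
    ContDiffAt ℝ 2 (fun Y => R (xx Y)) X :=
  (h.contDiffAt (xx_mem X)).comp X (contDiffAt_xx hX)

/-- The cutoff in the defining function. -/
noncomputable def cut (r1 t : ℝ) : ℝ := Real.smoothTransition (2 * t / r1 ^ 2 - 1)

lemma cut_zero (h1 : 0 < r1) {t : ℝ} (ht : t ≤ r1 ^ 2 / 2) : cut r1 t = 0 := by
  apply Real.smoothTransition.zero_of_nonpos
  have : 0 < r1 ^ 2 := by positivity
  rw [sub_nonpos, div_le_one this]
  linarith

lemma cut_one (h1 : 0 < r1) {t : ℝ} (ht : r1 ^ 2 ≤ t) : cut r1 t = 1 := by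
  apply Real.smoothTransition.one_of_one_le
  have : 0 < r1 ^ 2 := by positivity
  rw [le_sub_iff_add_le, le_div_iff₀ this]
  linarith

lemma cut_nonneg (r1 t : ℝ) : 0 ≤ cut r1 t := Real.smoothTransition.nonneg _

lemma cut_contDiff (r1 : ℝ) : ContDiff ℝ 2 (cut r1) := by
  unfold cut
  have : ContDiff ℝ 2 Real.smoothTransition := Real.smoothTransition.contDiff (n := 2)
  exact this.comp (by fun_prop)

/-- The defining function. -/
noncomputable def phi (R : ℝ → ℝ) (r1 : ℝ) (X : E3) : ℝ :=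
  ‖X‖ ^ 2 - r1 ^ 2 - cut r1 (‖X‖ ^ 2) * (R (xx X) ^ 2 - r1 ^ 2)

lemma contDiff_phi (h : RadFun R r1 ξ) : ContDiff ℝ 2 (phi R r1) := by
  rw [contDiff_iff_contDiffAt]
  intro X
  by_cases hX : X = 0
  · subst hX
    have hev : phi R r1 =ᶠ[𝓝 0] fun X => ‖X‖ ^ 2 - r1 ^ 2 := by
      have hc : ∀ᶠ X : E3 in 𝓝 0, ‖X‖ ^ 2 < r1 ^ 2 / 2 := by
        have : Tendsto (fun X : E3 => ‖X‖ ^ 2) (𝓝 0) (𝓝 (‖(0 : E3)‖ ^ 2)) :=
          (continuous_norm.pow 2).tendsto 0
        refine this.eventually_lt_const ?_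
        have := h.r1_pos
        simp
        positivity
      filter_upwards [hc] with X hX
      unfold phi
      rw [cut_zero h.r1_pos hX.le]
      ring
    refine ContDiffAt.congr_of_eventuallyEq ?_ hev
    exact ((contDiff_norm_sq ℝ).sub contDiff_const).contDiffAt
  · have e : ContDiffAt ℝ 2 (fun Y : E3 => ‖Y‖ ^ 2) X := (contDiff_norm_sq ℝ).contDiffAt
    exact (e.sub contDiffAt_const).sub (((cut_contDiff r1).contDiffAt.comp X e).mul
      (((h.comp_xx hX).pow 2).sub contDiffAt_const))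

lemma phi_of_le (h : RadFun R r1 ξ) {X : E3} (hX : r1 ≤ ‖X‖) :
    phi R r1 X = ‖X‖ ^ 2 - R (xx X) ^ 2 := by
  unfold phi
  rw [cut_one h.r1_pos (by have := h.r1_pos; nlinarith)]
  ring

lemma phi_of_lt (h : RadFun R r1 ξ) {X : E3} (hX : ‖X‖ < r1) : phi R r1 X < 0 := by
  unfold phi
  have h1 := h.lt _ (xx_mem X)
  have h2 := h.r1_pos
  have h3 := cut_nonneg r1 (‖X‖ ^ 2)
  have h4 : 0 ≤ R (xx X) ^ 2 - r1 ^ 2 := by nlinarith
  have h5 : ‖X‖ ^ 2 < r1 ^ 2 := by
    have := norm_nonneg X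
    nlinarith
  nlinarith [mul_nonneg h3 h4]

lemma phi_neg_iff (h : RadFun R r1 ξ) (X : E3) : phi R r1 X < 0 ↔ rr X < R (xx X) := by
  rcases lt_or_ge ‖X‖ r1 with hX | hX
  · exact ⟨fun _ => hX.trans (h.lt _ (xx_mem X)), fun _ => phi_of_lt h hX⟩
  · rw [phi_of_le h hX]
    have h1 := h.lt _ (xx_mem X)
    have h2 := h.r1_pos
    have h3 := norm_nonneg X
    unfold rr
    constructor
    · intro h'
      nlinarith
    · intro h'
      nlinarith

lemma phi_zero_iff (h : RadFun R r1 ξ) (X : E3) : phi R r1 X = 0 ↔ rr X = R (xx X) := by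
  rcases lt_or_ge ‖X‖ r1 with hX | hX
  · refine ⟨fun h' => absurd h' (phi_of_lt h hX).ne, fun h' => ?_⟩
    exact absurd h' (hX.trans (h.lt _ (xx_mem X))).ne
  · rw [phi_of_le h hX]
    have h1 := h.lt _ (xx_mem X)
    have h2 := h.r1_pos
    have h3 := norm_nonneg X
    unfold rr
    constructor
    · intro h'
      nlinarith
    · intro h'
      rw [h']; ring

lemma dom_eq (h : RadFun R r1 ξ) : Dom R = {X | phi R r1 X < 0} := by
  ext X
  exact (phi_neg_iff h X).symm

lemma isOpen_dom (h : RadFun R r1 ξ) : IsOpen (Dom R) := by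
  rw [dom_eq h]
  exact isOpen_lt (contDiff_phi h).continuous continuous_const

lemma fderiv_phi_ne (h : RadFun R r1 ξ) (X : E3) (hX : phi R r1 X = 0) :
    fderiv ℝ (phi R r1) X ≠ 0 := by
  have h1 := (phi_zero_iff h X).1 hX
  have h2 : r1 < ‖X‖ := by
    have := h.lt _ (xx_mem X)
    rw [← h1] at this
    exact this
  have h3 := h.r1_pos
  have hX0 : X ≠ 0 := by
    intro h'; rw [h'] at h2; simp at h2; linarith
  intro h0
  have hd : HasDerivAt (fun s : ℝ => phi R r1 (s • X)) 0 1 := by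
    have e : HasFDerivAt (phi R r1) (fderiv ℝ (phi R r1) X) ((1 : ℝ) • X) := by
      rw [one_smul]
      exact ((contDiff_phi h).differentiable (by norm_num) X).hasFDerivAt
    have e2 : HasDerivAt (fun s : ℝ => s • X) X 1 := by
      simpa using (hasDerivAt_id (1 : ℝ)).smul_const X
    have e3 := e.comp_hasDerivAt (1 : ℝ) e2
    rw [h0] at e3
    exact e3.congr_deriv (by simp)
  have hd2 : HasDerivAt (fun s : ℝ => phi R r1 (s • X)) (2 * ‖X‖ ^ 2) 1 := by
    have e : HasDerivAt (fun s : ℝ => s ^ 2 * ‖X‖ ^ 2 - R (xx X) ^ 2) (2 * ‖X‖ ^ 2) 1 := by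
      have := ((hasDerivAt_pow 2 (1 : ℝ)).mul_const (‖X‖ ^ 2)).sub_const (R (xx X) ^ 2)
      simpa using this
    refine e.congr_of_eventuallyEq ?_
    have e4 : ∀ᶠ s : ℝ in 𝓝 1, r1 / ‖X‖ < s := by
      refine lt_mem_nhds ?_
      rw [div_lt_one (by linarith)]
      exact h2
    filter_upwards [e4] with s hs
    have hs0 : 0 < s := lt_trans (div_pos h3 (by linarith)) hs
    have e5 : ‖s • X‖ = s * ‖X‖ := rr_smul hs0.le X
    rw [phi_of_le h, e5, xx_smul hs0]
    · ring
    · rw [e5]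
      rw [div_lt_iff₀ (by linarith)] at hs
      exact hs.le
  have := hd.unique hd2
  have h5 : 0 < ‖X‖ ^ 2 := by positivity
  linarith

lemma isBounded_dom (h : RadFun R r1 ξ) : Bornology.IsBounded (Dom R) := by
  obtain ⟨M, hM⟩ := (isCompact_Icc.image_of_continuousOn h.cont).bddAbove
  refine (Metric.isBounded_closedBall (x := (0 : E3)) (r := M)).subset ?_
  intro X hX
  rw [mem_closedBall_zero_iff]
  exact (le_of_lt hX).trans (hM (mem_image_of_mem R (xx_mem X)))

lemma zero_mem_dom (h : RadFun R r1 ξ) : (0 : E3) ∈ Dom R := by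
  have := h.lt _ (xx_mem 0)
  have h1 := h.r1_pos
  show rr 0 < _
  unfold rr
  rw [norm_zero]
  linarith

lemma smul_mem_dom (h : RadFun R r1 ξ) {X : E3} (hX : X ∈ Dom R) {s : ℝ} (h0 : 0 ≤ s)
    (h1 : s ≤ 1) : s • X ∈ Dom R := by
  rcases h0.eq_or_lt with h' | h'
  · rw [← h', zero_smul]; exact zero_mem_dom h
  · show rr (s • X) < R (xx (s • X))
    rw [rr_smul h0, xx_smul h']
    have : rr X < R (xx X) := hX
    nlinarith [rr_nonneg X]

lemma isConnected_dom (h : RadFun R r1 ξ) : IsConnected (Dom R) := by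
  have hs : StarConvex ℝ (0 : E3) (Dom R) := by
    rw [starConvex_zero_iff]
    intro X hX s h0 h1
    exact smul_mem_dom h hX h0 h1
  exact (hs.isPathConnected (zero_mem_dom h)).isConnected

lemma frontier_dom (h : RadFun R r1 ξ) : frontier (Dom R) = {X | rr X = R (xx X)} := by
  ext X
  rw [(isOpen_dom h).frontier_eq]
  constructor
  · rintro ⟨h1, h2⟩
    have h3 : phi R r1 X ≤ 0 := by
      have : closure (Dom R) ⊆ {X | phi R r1 X ≤ 0} := by
        rw [dom_eq h]
        exact closure_lt_subset_le (contDiff_phi h).continuous continuous_const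
      exact this h1
    have h4 : ¬ phi R r1 X < 0 := fun h' => h2 ((phi_neg_iff h X).1 h')
    exact (phi_zero_iff h X).1 (le_antisymm h3 (not_lt.1 h4))
  · intro h1
    have h1' : rr X = R (xx X) := h1
    refine ⟨?_, fun h2 => absurd h1' (ne_of_lt h2)⟩
    have hpos : 0 < rr X := by
      rw [h1']; exact h.r1_pos.trans (h.lt _ (xx_mem X))
    have e : Tendsto (fun s : ℝ => s • X) (𝓝[<] 1) (𝓝 X) := by
      have : Tendsto (fun s : ℝ => s • X) (𝓝 1) (𝓝 ((1 : ℝ) • X)) :=
        (continuous_id.smul continuous_const).tendsto 1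
      rw [one_smul] at this
      exact this.mono_left nhdsWithin_le_nhds
    refine mem_closure_of_tendsto e ?_
    have e1 : ∀ᶠ s : ℝ in 𝓝[<] 1, 0 < s := by
      exact mem_nhdsWithin_of_mem_nhds (lt_mem_nhds one_pos)
    filter_upwards [e1, self_mem_nhdsWithin] with s hs hs1
    show rr (s • X) < R (xx (s • X))
    rw [rr_smul hs.le, xx_smul hs, ← h1']
    have : s < 1 := hs1
    nlinarith

lemma homeo_dom (h : RadFun R r1 ξ) :
    Nonempty (frontier (Dom R) ≃ₜ Metric.sphere (0 : E3) 1) := by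
  have hf := frontier_dom h
  have hne : ∀ X : E3, X ∈ frontier (Dom R) → X ≠ 0 := by
    intro X hX h0
    rw [hf] at hX
    have h1 : rr X = R (xx X) := hX
    have h2 := h.lt _ (xx_mem X)
    rw [← h1, h0] at h2
    have h3 := h.r1_pos
    unfold rr at h2
    rw [norm_zero] at h2
    linarith
  have hRpos : ∀ X : E3, 0 < R (xx X) := fun X => h.r1_pos.trans (h.lt _ (xx_mem X))
  refine ⟨{ toFun := fun X => ⟨‖(X : E3)‖⁻¹ • (X : E3), ?_⟩
            invFun := fun ω => ⟨R (xx (ω : E3)) • (ω : E3), ?_⟩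
            left_inv := ?_
            right_inv := ?_
            continuous_toFun := ?_
            continuous_invFun := ?_ }⟩
  · rw [mem_sphere_zero_iff_norm, norm_smul, norm_inv, norm_norm,
      inv_mul_cancel₀ (norm_ne_zero_iff.2 (hne X X.2))]
  · rw [hf]
    show rr _ = R (xx _)
    have h1 : ‖(ω : E3)‖ = 1 := by simp
    rw [rr_smul (hRpos _).le, xx_smul (hRpos _)]
    unfold rr
    rw [h1, mul_one]
  · intro X
    apply Subtype.ext
    have h1 : rr (X : E3) = R (xx (X : E3)) := hf.subset X.2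
    have h2 : 0 < ‖(X : E3)‖ := norm_pos_iff.2 (hne X X.2)
    show R (xx (‖(X : E3)‖⁻¹ • (X : E3))) • (‖(X : E3)‖⁻¹ • (X : E3)) = X
    rw [xx_smul (inv_pos.2 h2), ← h1, smul_smul]
    unfold rr
    rw [mul_inv_cancel₀ h2.ne', one_smul]
  · intro ω
    apply Subtype.ext
    have h1 : ‖(ω : E3)‖ = 1 := by simp
    show ‖R (xx (ω : E3)) • (ω : E3)‖⁻¹ • (R (xx (ω : E3)) • (ω : E3)) = ω
    rw [norm_smul, Real.norm_of_nonneg (hRpos _).le, h1, mul_one, smul_smul,
      inv_mul_cancel₀ (hRpos _).ne', one_smul]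
  · refine Continuous.subtype_mk ?_ _
    have e : Continuous fun X : frontier (Dom R) => ‖(X : E3)‖⁻¹ :=
      Continuous.inv₀ (continuous_norm.comp continuous_subtype_val)
        (fun X => norm_ne_zero_iff.2 (hne X X.2))
    exact e.smul continuous_subtype_val
  · refine Continuous.subtype_mk ?_ _
    have e : Continuous fun ω : Metric.sphere (0 : E3) 1 => R (xx (ω : E3)) := ?_
    · exact e.smul continuous_subtype_val
    rw [continuous_iff_continuousAt]
    intro ω
    have hω : (ω : E3) ≠ 0 := by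
      intro h0
      have h1 : ‖(ω : E3)‖ = 1 := by simp
      rw [h0, norm_zero] at h1
      exact zero_ne_one h1
    exact (h.comp_xx hω).continuousAt.comp continuous_subtype_val.continuousAt

/-- A point with prescribed coordinates. -/
lemma exists_unit {x : ℝ} (hx : x ∈ Icc (-1 : ℝ) 1) : ∃ ω : E3, ‖ω‖ = 1 ∧ xx ω = x := by
  have h0 : 0 ≤ 1 - x ^ 2 := by nlinarith [hx.1, hx.2]
  refine ⟨!₂[Real.sqrt (1 - x ^ 2), 0, x], ?_, ?_⟩
  · rw [EuclideanSpace.norm_eq, Fin.sum_univ_three]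
    simp [Real.sq_sqrt h0]
  · unfold xx
    rw [EuclideanSpace.norm_eq, Fin.sum_univ_three]
    simp [Real.sq_sqrt h0]

lemma dom_ne_ball (h : RadFun R r1 ξ) (z : E3) (r : ℝ) : Dom R ≠ Metric.ball z r := by
  intro hD
  have h0 : (0 : E3) ∈ Metric.ball z r := hD ▸ zero_mem_dom h
  have hr : 0 < r := Metric.pos_of_mem_ball h0
  -- the centre is the origin
  have hz : z = 0 := by
    by_contra hz
    have hzpos : 0 < ‖z‖ := norm_pos_iff.2 hz
    -- a point close to the far end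
    obtain ⟨t, ht1, ht2⟩ : ∃ t, r - ‖z‖ < t ∧ t < r := ⟨r - ‖z‖ / 2, by linarith, by linarith⟩
    have hrz : ‖z‖ < r := by
      rw [Metric.mem_ball, dist_zero_left] at h0; exact h0
    have ht0 : 0 < t := by linarith
    set X : E3 := z + (t / ‖z‖) • z with hXdef
    have hXm : X ∈ Metric.ball z r := by
      rw [Metric.mem_ball, dist_eq_norm, hXdef, add_sub_cancel_left, norm_smul,
        Real.norm_of_nonneg (by positivity), div_mul_cancel₀ _ hzpos.ne']
      exact ht2
    rw [← hD] at hXm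
    have hXn : -X ∈ Dom R := by
      show rr (-X) < R (xx (-X))
      rw [rr_neg, xx_neg, h.even _ (xx_mem X)]
      exact hXm
    rw [hD, Metric.mem_ball, dist_eq_norm] at hXn
    have e : -X - z = -((2 + t / ‖z‖) • z) := by
      rw [hXdef, add_smul, two_smul]
      abel
    rw [e, norm_neg, norm_smul, Real.norm_of_nonneg (by positivity), add_mul,
      div_mul_cancel₀ _ hzpos.ne'] at hXn
    linarith
  subst hz
  -- so the radial function is constant
  have hR : ∀ x ∈ Icc (-1 : ℝ) 1, R x = r := by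
    intro x hx
    obtain ⟨ω, h1, h2⟩ := exists_unit hx
    have hRx : 0 < R x := h.r1_pos.trans (h.lt x hx)
    have key : ∀ s, 0 < s → (s < R x ↔ s < r) := by
      intro s hs
      have m1 : s • ω ∈ Dom R ↔ s < R x := by
        show rr (s • ω) < R (xx (s • ω)) ↔ _
        rw [rr_smul hs.le, xx_smul hs, h2]
        unfold rr
        rw [h1, mul_one]
      have m2 : s • ω ∈ Metric.ball (0 : E3) r ↔ s < r := by
        rw [mem_ball_zero_iff, norm_smul, h1, mul_one, Real.norm_of_nonneg hs.le]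
      rw [← m1, ← m2, hD]
    apply le_antisymm
    · by_contra h'
      push Not at h'
      have := (key r hr).1 h'
      exact lt_irrefl _ this
    · by_contra h'
      push Not at h'
      have := (key (R x) hRx).2 h'
      exact lt_irrefl _ this
  obtain ⟨x, hx, hne⟩ := h.nonconst
  exact hne ((hR x hx).trans (hR 1 (by simp)).symm)

end Pool.Agent.H31.SG
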