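import Pool.Agent.H68.SC.Jl

/-!
The entire functions `gk k` with `j_k (t) = t ^ k * gk k (t ^ 2)`.
-/

set_option autoImplicit false
open Filter Topology Set
open scoped Nat

namespace Pool.Agent.H31.SG

open Pool.Agent.H68.SC (jl djl jl_rec jl_deriv jl_ode)

/-- The odd double factorial `(2 n + 1)!!`. -/
noncomputable def df (n : ℕ) : ℝ := ((2 * n + 1)‼ : ℕ)

lemma df_pos (n : ℕ) : 0 < df n := by
  unfold df
  exact_mod_cast Nat.doubleFactorial_pos _

lemma df_succ (n : ℕ) : df (n + 1) = (2 * (n : ℝ) + 3) * df n := by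
  unfold df
  have : 2 * (n + 1) + 1 = (2 * n + 1) + 2 := by ring
  rw [this, Nat.doubleFactorial_add_two]
  push_cast
  ring

lemma df_zero : df 0 = 1 := by
  unfold df
  simp

lemma df_mul_le (k m : ℕ) : df k * (2 * (k : ℝ) + 3) ^ m ≤ df (k + m) := by
  induction m with
  | zero => simp
  | succ m ih =>
      rw [← add_assoc, df_succ, pow_succ]
      have h1 : (2 * (k : ℝ) + 3) ≤ 2 * ((k + m : ℕ) : ℝ) + 3 := by
        push_cast
        linarith [(Nat.cast_nonneg m : (0 : ℝ) ≤ m)]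
      have h2 : 0 ≤ df k * (2 * (k : ℝ) + 3) ^ m := by
        have := df_pos k
        positivity
      calc df k * ((2 * (k : ℝ) + 3) ^ m * (2 * (k : ℝ) + 3))
          = (2 * (k : ℝ) + 3) * (df k * (2 * (k : ℝ) + 3) ^ m) := by ring
        _ ≤ (2 * ((k + m : ℕ) : ℝ) + 3) * df (k + m) :=
            mul_le_mul h1 ih h2 (by positivity)

lemma df_le (k m : ℕ) : df k ≤ df (k + m) := by
  refine le_trans ?_ (df_mul_le k m)
  have h1 : (1 : ℝ) ≤ (2 * (k : ℝ) + 3) ^ m :=
    one_le_pow₀ (by linarith [(Nat.cast_nonneg k : (0 : ℝ) ≤ k)])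
  nlinarith [df_pos k]

/-- The terms of the series. -/
noncomputable def tk (k m : ℕ) (w : ℝ) : ℝ := (-w / 2) ^ m / ((m ! : ℝ) * df (k + m))

/-- The entire function `gk k`. -/
noncomputable def gk (k : ℕ) (w : ℝ) : ℝ := ∑' m, tk k m w

lemma tk_abs (k m : ℕ) (w : ℝ) : |tk k m w| ≤ (|w| / 2) ^ m / (m ! : ℝ) / df k := by
  unfold tk
  rw [abs_div, abs_pow, abs_div, abs_neg, abs_two, abs_mul, abs_of_pos (df_pos _), Nat.abs_cast,
    div_div]
  have h1 : (0 : ℝ) < (m ! : ℝ) := by exact_mod_cast Nat.factorial_pos m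
  have h2 := df_pos k
  gcongr
  exact df_le k m

lemma summable_exp (B : ℝ) (k : ℕ) : Summable (fun m : ℕ => (B / 2) ^ m / (m ! : ℝ) / df k) :=
  (Real.summable_pow_div_factorial (B / 2)).div_const _

lemma tk_summable (k : ℕ) (w : ℝ) : Summable (fun m => tk k m w) := by
  refine Summable.of_norm_bounded (summable_exp |w| k) (fun m => ?_)
  rw [Real.norm_eq_abs]
  exact tk_abs k m w

lemma tsum_exp (B : ℝ) (k : ℕ) :
    ∑' m : ℕ, (B / 2) ^ m / (m ! : ℝ) / df k = Real.exp (B / 2) / df k := by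
  rw [tsum_div_const, Real.exp_eq_exp_ℝ, NormedSpace.exp_eq_tsum_div]

lemma gk_abs (k : ℕ) (w : ℝ) : |gk k w| ≤ Real.exp (|w| / 2) / df k := by
  unfold gk
  rw [← tsum_exp]
  have := norm_tsum_le_tsum_norm (f := fun m => tk k m w)
    ((tk_summable k w).norm)
  refine this.trans ?_
  exact (tk_summable k w).norm.tsum_le_tsum (fun m => by rw [Real.norm_eq_abs]; exact tk_abs k m w)
    (summable_exp |w| k)

lemma tk_deriv_zero (k : ℕ) (w : ℝ) : HasDerivAt (tk k 0) 0 w := by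
  have : tk k 0 = fun _ => 1 / df k := by
    ext w
    simp [tk]
  rw [this]
  exact hasDerivAt_const _ _

lemma tk_deriv_succ (k m : ℕ) (w : ℝ) :
    HasDerivAt (tk k (m + 1)) (-(1 / 2) * tk (k + 1) m w) w := by
  have h1 : HasDerivAt (fun w : ℝ => (-w / 2) ^ (m + 1)) (((m + 1 : ℕ) : ℝ) * (-w / 2) ^ m * (-1 / 2)) w := by
    have e : HasDerivAt (fun w : ℝ => -w / 2) (-1 / 2) w := (hasDerivAt_id w).neg.div_const 2
    exact (e.pow (m + 1)).congr_deriv (by simp)
  have h2 := h1.div_const (((m + 1) ! : ℝ) * df (k + (m + 1)))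
  refine h2.congr_deriv ?_
  unfold tk
  rw [Nat.factorial_succ, show k + (m + 1) = k + 1 + m by ring]
  push_cast
  have a1 : (m ! : ℝ) ≠ 0 := by exact_mod_cast (Nat.factorial_pos m).ne'
  have a2 := (df_pos (k + 1 + m)).ne'
  have a3 : (m : ℝ) + 1 ≠ 0 := by positivity
  field_simp

lemma gk_deriv (k : ℕ) (w : ℝ) : HasDerivAt (gk k) (-(1 / 2) * gk (k + 1) w) w := by
  have hs : Summable (fun m : ℕ => ((|w| + 1) / 2) ^ m / (m ! : ℝ) / df (k + 1)) :=
    summable_exp _ _
  have hw : w ∈ Metric.ball (0 : ℝ) (|w| + 1) := by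
    rw [mem_ball_zero_iff, Real.norm_eq_abs]; linarith
  have hgk : gk k = fun w => tk k 0 w + ∑' m, tk k (m + 1) w := by
    ext w
    unfold gk
    exact (tk_summable k w).tsum_eq_zero_add
  have key := hasDerivAt_tsum_of_isPreconnected (g := fun m w => tk k (m + 1) w)
    (g' := fun m w => -(1 / 2) * tk (k + 1) m w) hs (Metric.isOpen_ball)
    (convex_ball (0 : ℝ) (|w| + 1)).isPreconnected (fun m y _ => tk_deriv_succ k m y) ?_ hw
    ((summable_nat_add_iff 1).2 (tk_summable k w)) hw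
  · rw [hgk]
    have := (tk_deriv_zero k w).add key
    rw [tsum_mul_left, zero_add] at this
    exact this
  · intro m y hy
    rw [mem_ball_zero_iff, Real.norm_eq_abs] at hy
    rw [norm_mul, Real.norm_eq_abs, Real.norm_eq_abs]
    have h1 := tk_abs (k + 1) m y
    have h2 : (|y| / 2) ^ m / (m ! : ℝ) / df (k + 1) ≤ ((|w| + 1) / 2) ^ m / (m ! : ℝ) / df (k + 1) := by
      have := df_pos (k + 1)
      gcongr
    have h3 : |(-(1 / 2) : ℝ)| = 1 / 2 := by rw [abs_neg, abs_of_pos]; norm_num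
    rw [h3]
    have h4 := abs_nonneg (tk (k + 1) m y)
    linarith

/-- The recurrence. -/
lemma gk_rec (k : ℕ) (w : ℝ) : w * gk (k + 2) w = (2 * (k : ℝ) + 3) * gk (k + 1) w - gk k w := by
  have e1 : (2 * (k : ℝ) + 3) * gk (k + 1) w - gk k w =
      ∑' m, ((2 * (k : ℝ) + 3) * tk (k + 1) m w - tk k m w) := by
    unfold gk
    rw [← tsum_mul_left, ← ((tk_summable (k + 1) w).mul_left _).tsum_sub (tk_summable k w)]
  have hs : Summable (fun m => (2 * (k : ℝ) + 3) * tk (k + 1) m w - tk k m w) :=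
    ((tk_summable (k + 1) w).mul_left _).sub (tk_summable k w)
  rw [e1, hs.tsum_eq_zero_add]
  have z : (2 * (k : ℝ) + 3) * tk (k + 1) 0 w - tk k 0 w = 0 := by
    unfold tk
    simp only [pow_zero, Nat.factorial_zero, Nat.cast_one, one_mul, add_zero]
    rw [df_succ]
    have := (df_pos k).ne'
    have h3 : (2 * (k : ℝ) + 3) ≠ 0 := by positivity
    field_simp
    ring
  rw [z, zero_add]
  unfold gk
  rw [← tsum_mul_left]
  refine tsum_congr (fun m => ?_)
  unfold tk
  rw [Nat.factorial_succ, show k + 1 + (m + 1) = (k + 1 + m) + 1 by ring,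
    show k + (m + 1) = k + 1 + m by ring, show k + 2 + m = (k + 1 + m) + 1 by ring, df_succ]
  push_cast
  have a1 : (m ! : ℝ) ≠ 0 := by exact_mod_cast (Nat.factorial_pos m).ne'
  have a2 := (df_pos (k + 1 + m)).ne'
  have a3 : (m : ℝ) + 1 ≠ 0 := by positivity
  have a4 : 2 * ((k : ℝ) + 1 + m) + 3 ≠ 0 := by positivity
  field_simp
  ring

lemma gk_zero {t : ℝ} (ht : 0 < t) : gk 0 (t ^ 2) = jl 0 t := by
  have hs := Real.hasSum_sin t
  have h1 : ∀ m : ℕ, t * tk 0 m (t ^ 2) = (-1) ^ m * t ^ (2 * m + 1) / ((2 * m + 1) ! : ℝ) := by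
    intro m
    unfold tk df
    have e1 : ((2 * m + 1) ! : ℝ) = (2 ^ m * (m ! : ℝ)) * ((2 * m + 1)‼ : ℕ) := by
      have := Nat.factorial_eq_mul_doubleFactorial (2 * m)
      have h2 := Nat.doubleFactorial_two_mul m
      rw [h2] at this
      have h3 : (2 * m + 1)! = (2 * m + 1)‼ * (2 ^ m * m !) := this
      rw [h3]
      push_cast
      ring
    rw [e1, zero_add]
    have a1 : (m ! : ℝ) ≠ 0 := by exact_mod_cast (Nat.factorial_pos m).ne'
    have a2 : (((2 * m + 1)‼ : ℕ) : ℝ) ≠ 0 := by exact_mod_cast (Nat.doubleFactorial_pos _).ne'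
    have e2 : (-t ^ 2 / 2) ^ m = (-1) ^ m * t ^ (2 * m) / 2 ^ m := by
      rw [div_pow, neg_pow, ← pow_mul]
    rw [e2, pow_succ]
    field_simp
  have h2 : t * gk 0 (t ^ 2) = Real.sin t := by
    unfold gk
    rw [← tsum_mul_left, ← hs.tsum_eq]
    exact tsum_congr h1
  have h3 : jl 0 t = Real.sin t / t := by rw [jl]
  rw [h3, ← h2]
  field_simp

lemma gk_one {t : ℝ} (ht : 0 < t) : t * gk 1 (t ^ 2) = jl 1 t := by
  have h1 : HasDerivAt (fun t : ℝ => gk 0 (t ^ 2)) (-(1 / 2) * gk 1 (t ^ 2) * (2 * t)) t := by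
    have e : HasDerivAt (fun t : ℝ => t ^ 2) (2 * t) t := by
      simpa using hasDerivAt_pow 2 t
    exact (gk_deriv 0 (t ^ 2)).comp t e
  have h2 := jl_deriv 0 ht
  have h3 : HasDerivAt (jl 0) (-(1 / 2) * gk 1 (t ^ 2) * (2 * t)) t := by
    refine h1.congr_of_eventuallyEq ?_
    filter_upwards [lt_mem_nhds ht] with y hy
    exact (gk_zero hy).symm
  have h4 := h2.unique h3
  unfold djl at h4
  simp only [Nat.cast_zero, zero_div, zero_mul, zero_sub, zero_add] at h4
  linarith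

/-- `j_k (t) = t ^ k gk k (t ^ 2)`. -/
theorem jl_eq (k : ℕ) {t : ℝ} (ht : 0 < t) : jl k t = t ^ k * gk k (t ^ 2) := by
  have : jl k t = t ^ k * gk k (t ^ 2) ∧ jl (k + 1) t = t ^ (k + 1) * gk (k + 1) (t ^ 2) := by
    induction k with
    | zero =>
        refine ⟨?_, ?_⟩
        · rw [gk_zero ht]; simp
        · rw [zero_add, pow_one, gk_one ht]
    | succ k ih =>
        refine ⟨ih.2, ?_⟩
        rw [show k + 1 + 1 = k + 2 from rfl, jl_rec, ih.1, ih.2]
        have h := gk_rec k (t ^ 2)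
        have e : t ^ (k + 2) * gk (k + 2) (t ^ 2) = t ^ k * (t ^ 2 * gk (k + 2) (t ^ 2)) := by ring
        rw [e, h]
        field_simp
        ring
  exact this.1

/-- Lower bound for large `k`. -/
theorem gk_lower (k : ℕ) {w : ℝ} (hw : 0 ≤ w) (hk : 2 * w ≤ 2 * (k : ℝ) + 3) :
    1 / (2 * df k) ≤ gk k w := by
  have hd := df_pos k
  have hk3 : (0 : ℝ) < 2 * (k : ℝ) + 3 := by positivity
  have e0 : gk k w = 1 / df k + ∑' m, tk k (m + 1) w := by
    unfold gk
    rw [(tk_summable k w).tsum_eq_zero_add]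
    simp [tk]
  have hb : ∀ m, |tk k (m + 1) w| ≤ (1 / 4) * (1 / 4 : ℝ) ^ m / df k := by
    intro m
    unfold tk
    rw [abs_div, abs_pow, abs_div, abs_neg, abs_two, abs_mul, abs_of_pos (df_pos _), Nat.abs_cast,
      abs_of_nonneg hw]
    have h1 : (1 : ℝ) ≤ ((m + 1) ! : ℝ) := by exact_mod_cast Nat.one_le_iff_ne_zero.2 (Nat.factorial_pos _).ne'
    have h2 := df_mul_le k (m + 1)
    have h3 : df k * (2 * (k : ℝ) + 3) ^ (m + 1) ≤ ((m + 1) ! : ℝ) * df (k + (m + 1)) := by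
      have := df_pos (k + (m + 1))
      nlinarith
    have h4 : 0 < df k * (2 * (k : ℝ) + 3) ^ (m + 1) := by positivity
    calc (w / 2) ^ (m + 1) / (((m + 1) ! : ℝ) * df (k + (m + 1)))
        ≤ (w / 2) ^ (m + 1) / (df k * (2 * (k : ℝ) + 3) ^ (m + 1)) := by
          gcongr
      _ = (w / 2 / (2 * (k : ℝ) + 3)) ^ (m + 1) / df k := by
          rw [div_pow _ (2 * (k : ℝ) + 3)]
          field_simp
      _ ≤ (1 / 4) ^ (m + 1) / df k := by
          have : w / 2 / (2 * (k : ℝ) + 3) ≤ 1 / 4 := by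
            rw [div_le_iff₀ hk3]
            linarith
          gcongr
      _ = (1 / 4) * (1 / 4 : ℝ) ^ m / df k := by rw [pow_succ]; ring
  have hs4 : Summable (fun m : ℕ => (1 / 4) * (1 / 4 : ℝ) ^ m / df k) :=
    ((summable_geometric_of_lt_one (by norm_num) (by norm_num)).mul_left _).div_const _
  have hsum : |∑' m, tk k (m + 1) w| ≤ (1 / 3) / df k := by
    have h1 : Summable (fun m => ‖tk k (m + 1) w‖) :=
      Summable.of_nonneg_of_le (fun _ => norm_nonneg _) (fun m => by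
        rw [Real.norm_eq_abs]; exact hb m) hs4
    have h2 := norm_tsum_le_tsum_norm h1
    rw [Real.norm_eq_abs] at h2
    refine h2.trans ?_
    refine (h1.tsum_le_tsum (fun m => by rw [Real.norm_eq_abs]; exact hb m) hs4).trans ?_
    rw [tsum_div_const, tsum_mul_left, tsum_geometric_of_lt_one (by norm_num) (by norm_num)]
    norm_num
  have h5 := (abs_le.1 hsum).1
  rw [e0]
  have h6 : 1 / (2 * df k) = (1 / 2) / df k := by field_simp
  have h7 : (1 / 3) / df k = (1 / 3) * (1 / df k) := by ring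
  have h8 : (1 / 2) / df k = (1 / 2) * (1 / df k) := by ring
  rw [h6, h8]
  rw [h7] at h5
  have h9 : 0 < 1 / df k := by positivity
  linarith

end Pool.Agent.H31.SG
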