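import Pool.Agent.H31.SG.Dom

/-!
From a solution `U (r, x)` in the coordinates `r = ‖X‖`, `x = X₂ / ‖X‖` (and a smooth solution near
the origin) to the failure of the Schiffer property.
-/

set_option autoImplicit false
open Filter Topology Set

namespace Pool.Agent.H31.SG

section jet
variable {f f1 f2 f11 f12 f21 f22 : ℝ × ℝ → ℝ} {S : Set (ℝ × ℝ)}

lemma contDiffOn_one_of {g g1 g2 : ℝ × ℝ → ℝ} (hS : IsOpen S)
    (h : ∀ z ∈ S, HasFDerivAt g (lin (g1 z) (g2 z)) z) (c1 : ContinuousOn g1 S)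
    (c2 : ContinuousOn g2 S) : ContDiffOn ℝ 1 g S := by
  have e : ContDiffOn ℝ (0 + 1) g S := by
    rw [contDiffOn_succ_iff_fderiv_of_isOpen hS]
    refine ⟨fun z hz => (h z hz).differentiableAt.differentiableWithinAt, by simp, ?_⟩
    rw [contDiffOn_zero]
    have : ContinuousOn (fun z => lin (g1 z) (g2 z)) S := by
      unfold lin
      exact (c1.smul continuousOn_const).add (c2.smul continuousOn_const)
    exact this.congr (fun z hz => (h z hz).fderiv)
  simpa using e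

/-- A function with continuous second order derivatives is `C²`. -/
lemma Jet.contDiffOn (hS : IsOpen S) (hJ : Jet f f1 f2 f11 f12 f21 f22 S)
    (c11 : ContinuousOn f11 S) (c12 : ContinuousOn f12 S) (c21 : ContinuousOn f21 S)
    (c22 : ContinuousOn f22 S) : ContDiffOn ℝ 2 f S := by
  have e : ContDiffOn ℝ (1 + 1) f S := by
    rw [contDiffOn_succ_iff_fderiv_of_isOpen hS]
    refine ⟨fun z hz => (hJ.d z hz).differentiableAt.differentiableWithinAt, by simp, ?_⟩
    have a1 := contDiffOn_one_of hS hJ.d1 c11 c12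
    have a2 := contDiffOn_one_of hS hJ.d2 c21 c22
    have : ContDiffOn ℝ 1 (fun z => lin (f1 z) (f2 z)) S := by
      unfold lin
      exact (a1.smul contDiffOn_const).add (a2.smul contDiffOn_const)
    exact this.congr (fun z hz => (hJ.d z hz).fderiv)
  have h2 : (1 + 1 : WithTop ℕ∞) = 2 := by norm_num
  rwa [h2] at e

end jet

/-- The negated statement. -/
def NotSchiffer : Prop :=
    ¬ (∀ (D : Set (EuclideanSpace ℝ (Fin 3))) (φ : EuclideanSpace ℝ (Fin 3) → ℝ),
      Bornology.IsBounded D → IsConnected D → ContDiff ℝ 2 φ →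
      D = {x | φ x < 0} →
      (∀ x, φ x = 0 → fderiv ℝ φ x ≠ 0) →
      Nonempty (frontier D ≃ₜ Metric.sphere (0 : EuclideanSpace ℝ (Fin 3)) 1) →
      ∀ (k c : ℝ) (u : EuclideanSpace ℝ (Fin 3) → ℝ),
        0 < k → c ≠ 0 → ContDiffOn ℝ 2 u D →
        (∀ x ∈ D, (∑ i : Fin 3, fderiv ℝ (fderiv ℝ u) x (EuclideanSpace.single i (1 : ℝ))
            (EuclideanSpace.single i (1 : ℝ))) + k ^ 2 * u x = 0) →
        (∀ x ∈ frontier D, Tendsto u (𝓝[D] x) (𝓝 c) ∧
            Tendsto (fderiv ℝ u) (𝓝[D] x) (𝓝 0)) →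
        ∃ (z : EuclideanSpace ℝ (Fin 3)) (r : ℝ), D = Metric.ball z r)

/-- The region below the graph of `R`. -/
def Below (R : ℝ → ℝ) : Set (ℝ × ℝ) := {z | z.1 < R z.2 ∧ z.2 ∈ Icc (-1 : ℝ) 1}

/-- The geometric reduction: a solution in the coordinates `(r, x)` outside a small ball and a
smooth solution in the small ball give a domain without the Pompeiu property. -/
theorem geo {R : ℝ → ℝ} {r1 ξ a b c : ℝ} (h : RadFun R r1 ξ) (ha : 0 < a) (hab : a < b) (hb : b ≤ r1)
    (hc : c ≠ 0) {S : Set (ℝ × ℝ)} (hS : IsOpen S)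
    (hsub : ∀ z ∈ Below R, a < z.1 → z ∈ S)
    {U U1 U2 U11 U12 U21 U22 : ℝ × ℝ → ℝ} (hJ : Jet U U1 U2 U11 U12 U21 U22 S)
    (c11 : ContinuousOn U11 S) (c12 : ContinuousOn U12 S) (c21 : ContinuousOn U21 S)
    (c22 : ContinuousOn U22 S)
    (pde : ∀ z ∈ Below R, a < z.1 →
      U11 z + 2 / z.1 * U1 z + ((1 - z.2 ^ 2) * U22 z - 2 * z.2 * U2 z) / z.1 ^ 2 + U z = 0)
    (b0 : ∀ x ∈ Icc (-1 : ℝ) 1, Tendsto U (𝓝[Below R] (R x, x)) (𝓝 c))
    (b1 : ∀ x ∈ Icc (-1 : ℝ) 1, Tendsto U1 (𝓝[Below R] (R x, x)) (𝓝 0))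
    (b2 : ∀ x ∈ Icc (-1 : ℝ) 1, Tendsto U2 (𝓝[Below R] (R x, x)) (𝓝 0))
    {u0 : E3 → ℝ} (hu0 : ContDiffOn ℝ 2 u0 (Metric.ball 0 b))
    (pde0 : ∀ X ∈ Metric.ball (0 : E3) b,
      (∑ i : Fin 3, fderiv ℝ (fderiv ℝ u0) X (EuclideanSpace.single i (1 : ℝ))
        (EuclideanSpace.single i (1 : ℝ))) + u0 X = 0)
    (glue : ∀ X : E3, a < ‖X‖ → ‖X‖ < b → u0 X = U (‖X‖, xx X)) : NotSchiffer := by
  classical
  intro H
  set u : E3 → ℝ := fun X => if ‖X‖ < b then u0 X else U (rr X, xx X) with hu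
  have hU2 := hJ.contDiffOn hS c11 c12 c21 c22
  -- the two descriptions of `u`
  have ev1 : ∀ X : E3, ‖X‖ < b → u =ᶠ[𝓝 X] u0 := by
    intro X hX
    have : ∀ᶠ Y : E3 in 𝓝 X, ‖Y‖ < b := continuous_norm.continuousAt.eventually_lt_const hX
    filter_upwards [this] with Y hY
    simp [hu, hY]
  have val2 : ∀ X : E3, a < ‖X‖ → u X = U (rr X, xx X) := by
    intro X hX
    by_cases hY : ‖X‖ < b
    · simp only [hu, hY, if_true]
      exact glue X hX hY
    · simp only [hu, hY, if_false]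
  have ev2 : ∀ X : E3, a < ‖X‖ → u =ᶠ[𝓝 X] fun Y => U (rr Y, xx Y) := by
    intro X hX
    have : ∀ᶠ Y : E3 in 𝓝 X, a < ‖Y‖ := continuous_norm.continuousAt.eventually_const_lt hX
    filter_upwards [this] with Y hY
    exact val2 Y hY
  have hne : ∀ X : E3, a < ‖X‖ → X ≠ 0 := by
    intro X hX h0
    rw [h0, norm_zero] at hX
    linarith
  have memB : ∀ X ∈ Dom R, (rr X, xx X) ∈ Below R := fun X hX => ⟨hX, xx_mem X⟩
  have memS : ∀ X ∈ Dom R, a < ‖X‖ → (rr X, xx X) ∈ S := fun X hX hX2 =>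
    hsub _ (memB X hX) hX2
  have key := H (Dom R) (phi R r1) (isBounded_dom h) (isConnected_dom h) (contDiff_phi h)
    (dom_eq h) (fderiv_phi_ne h) (homeo_dom h) 1 c u one_pos hc ?_ ?_ ?_
  · obtain ⟨z, r, hz⟩ := key
    exact dom_ne_ball h z r hz
  · -- regularity
    intro X hX
    by_cases hX1 : ‖X‖ < b
    · have : ContDiffAt ℝ 2 u0 X := hu0.contDiffAt (Metric.isOpen_ball.mem_nhds (by simpa using hX1))
      exact (this.congr_of_eventuallyEq (ev1 X hX1)).contDiffWithinAt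
    · have hX2 : a < ‖X‖ := by linarith [not_lt.1 hX1]
      have e1 := (contDiffAt_rr (hne X hX2)).prodMk (contDiffAt_xx (hne X hX2))
      have e2 : ContDiffAt ℝ 2 U (rr X, xx X) := hU2.contDiffAt (hS.mem_nhds (memS X hX hX2))
      have e : ContDiffAt ℝ 2 (fun Y => U (rr Y, xx Y)) X := e2.comp X e1
      exact (e.congr_of_eventuallyEq (ev2 X hX2)).contDiffWithinAt
  · -- the equation
    intro X hX
    by_cases hX1 : ‖X‖ < b
    · have e1 := (ev1 X hX1).fderiv (𝕜 := ℝ)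
      rw [e1.fderiv_eq, (ev1 X hX1).eq_of_nhds]
      have := pde0 X (by simpa using hX1)
      rw [one_pow, one_mul]
      exact this
    · have hX2 : a < ‖X‖ := by linarith [not_lt.1 hX1]
      have e1 := (ev2 X hX2).fderiv (𝕜 := ℝ)
      rw [e1.fderiv_eq, (ev2 X hX2).eq_of_nhds, one_pow, one_mul,
        lap_comp hS hJ (hne X hX2) (memS X hX hX2)]
      exact pde _ (memB X hX) hX2
  · -- boundary values
    intro X hX
    have hXf : rr X = R (xx X) := (frontier_dom h).subset hX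
    have hXr : r1 < ‖X‖ := by
      have := h.lt _ (xx_mem X)
      rw [← hXf] at this
      exact this
    have hX2 : a < ‖X‖ := by linarith
    have hX0 := hne X hX2
    have hcont : Tendsto (fun Y : E3 => (rr Y, xx Y)) (𝓝[Dom R] X) (𝓝[Below R] (R (xx X), xx X)) := by
      rw [← hXf]
      refine tendsto_nhdsWithin_iff.2 ⟨?_, ?_⟩
      · exact ((contDiffAt_rr hX0).continuousAt.prodMk (contDiffAt_xx hX0).continuousAt).tendsto.mono_left
          nhdsWithin_le_nhds
      · filter_upwards [self_mem_nhdsWithin] with Y hY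
        exact memB Y hY
    have evn : ∀ᶠ Y : E3 in 𝓝[Dom R] X, a < ‖Y‖ :=
      (continuous_norm.continuousAt.eventually_const_lt hX2).filter_mono nhdsWithin_le_nhds
    constructor
    · have t := (b0 _ (xx_mem X)).comp hcont
      refine t.congr' ?_
      filter_upwards [evn] with Y hY
      exact (val2 Y hY).symm
    · have t1 := (b1 _ (xx_mem X)).comp hcont
      have t2 := (b2 _ (xx_mem X)).comp hcont
      have d1 : Tendsto (fderiv ℝ rr) (𝓝[Dom R] X) (𝓝 (fderiv ℝ rr X)) :=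
        (((contDiffAt_rr hX0).fderiv_right (m := 1) (by norm_num)).continuousAt).tendsto.mono_left
          nhdsWithin_le_nhds
      have d2 : Tendsto (fderiv ℝ xx) (𝓝[Dom R] X) (𝓝 (fderiv ℝ xx X)) :=
        (((contDiffAt_xx hX0).fderiv_right (m := 1) (by norm_num)).continuousAt).tendsto.mono_left
          nhdsWithin_le_nhds
      have t := (t1.smul d1).add (t2.smul d2)
      rw [zero_smul, zero_smul, add_zero] at t
      refine t.congr' ?_
      filter_upwards [evn, self_mem_nhdsWithin] with Y hY hYD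
      have hY0 := hne Y hY
      rw [(ev2 Y hY).fderiv_eq]
      exact (fderiv_comp2 hJ ((contDiffAt_rr hY0).differentiableAt (by norm_num))
        ((contDiffAt_xx hY0).differentiableAt (by norm_num)) (memS Y hYD hY)).fderiv.symm

end Pool.Agent.H31.SG
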