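import Pool.Agent.H31.SG.Core
import Pool.Agent.H85.Sch.EndStep

/-!
# MP_f4af34, block END: the interior solution near the origin, in the form of helper85
-/

set_option autoImplicit false

noncomputable section

namespace SF

open Pool.Agent.H31.SG (useries interior)

theorem inner_stmt : InnerStmt R0 := by
  intro c hc
  have hR : (1000 : ℝ) ≤ R0 := by
    have := rho_gt'
    unfold R0 wd
    linarith
  have hM : ∀ k, |c k * Pool.Agent.H68.SC.jl k R0| ≤
      ∑' k, |c k * Pool.Agent.H68.SC.jl k R0| := fun k =>
    hc.le_tsum k fun j _ => abs_nonneg _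
  obtain ⟨h1, h2, -, h4⟩ := interior hR hM
  refine ⟨2, by norm_num, by linarith, useries c, h1, h2, fun X hX _ => ?_⟩
  rw [h4 X hX]
  exact tsum_congr fun k => by ring

end SF
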