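import Mathlib

/-!
Second derivatives of composites `f (p X, q X)` and the Laplacian of `f (‖X‖, X₂ / ‖X‖)` in
three dimensional space.  The coordinate `x = X₂ / ‖X‖` is smooth away from the origin, so there is
no singularity on the axis.
-/

set_option autoImplicit false
open Filter Topology

namespace Pool.Agent.H31.SG

/-- Three dimensional space. -/
abbrev E3 : Type := EuclideanSpace ℝ (Fin 3)

/-- The second derivative of `a` in the direction `v`. -/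
noncomputable def D2 {E : Type*} [NormedAddCommGroup E] [NormedSpace ℝ E] (a : E → ℝ) (X v : E) : ℝ :=
  fderiv ℝ (fderiv ℝ a) X v v

/-- The linear form `(s, t) ↦ a s + b t`. -/
noncomputable def lin (a b : ℝ) : ℝ × ℝ →L[ℝ] ℝ :=
  a • ContinuousLinearMap.fst ℝ ℝ ℝ + b • ContinuousLinearMap.snd ℝ ℝ ℝ

@[simp] lemma lin_apply (a b : ℝ) (z : ℝ × ℝ) : lin a b z = a * z.1 + b * z.2 := by
  simp [lin]

/-- Explicit derivatives up to order two of a function of two variables on a set. -/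
structure Jet (f f1 f2 f11 f12 f21 f22 : ℝ × ℝ → ℝ) (S : Set (ℝ × ℝ)) : Prop where
  d : ∀ z ∈ S, HasFDerivAt f (lin (f1 z) (f2 z)) z
  d1 : ∀ z ∈ S, HasFDerivAt f1 (lin (f11 z) (f12 z)) z
  d2 : ∀ z ∈ S, HasFDerivAt f2 (lin (f21 z) (f22 z)) z

section comp
variable {E : Type*} [NormedAddCommGroup E] [NormedSpace ℝ E]
variable {f f1 f2 f11 f12 f21 f22 : ℝ × ℝ → ℝ} {S : Set (ℝ × ℝ)}

lemma hasFDerivAt_two {p : E → ℝ} {X : E} (hp : ContDiffAt ℝ 2 p X) :
    HasFDerivAt p (fderiv ℝ p X) X ∧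
      HasFDerivAt (fderiv ℝ p) (fderiv ℝ (fderiv ℝ p) X) X := by
  refine ⟨(hp.differentiableAt (by norm_num)).hasFDerivAt, ?_⟩
  have h1 : ContDiffAt ℝ 1 (fderiv ℝ p) X := hp.fderiv_right (by norm_num)
  exact (h1.differentiableAt (by norm_num)).hasFDerivAt

/-- First derivative of a composite. -/
lemma fderiv_comp2 (hJ : Jet f f1 f2 f11 f12 f21 f22 S) {p q : E → ℝ} {X : E}
    (hp : DifferentiableAt ℝ p X) (hq : DifferentiableAt ℝ q X) (hz : (p X, q X) ∈ S) :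
    HasFDerivAt (fun Y => f (p Y, q Y))
      (f1 (p X, q X) • fderiv ℝ p X + f2 (p X, q X) • fderiv ℝ q X) X := by
  have h := (hJ.d _ hz).comp X (hp.hasFDerivAt.prodMk hq.hasFDerivAt)
  have e : (lin (f1 (p X, q X)) (f2 (p X, q X))).comp ((fderiv ℝ p X).prod (fderiv ℝ q X)) =
      f1 (p X, q X) • fderiv ℝ p X + f2 (p X, q X) • fderiv ℝ q X := by
    ext v
    simp
  rw [e] at h
  exact h

/-- Second derivative of a composite. -/
lemma D2_comp2 (hS : IsOpen S) (hJ : Jet f f1 f2 f11 f12 f21 f22 S) {p q : E → ℝ} {X : E}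
    (hp : ContDiffAt ℝ 2 p X) (hq : ContDiffAt ℝ 2 q X) (hz : (p X, q X) ∈ S) (v : E) :
    D2 (fun Y => f (p Y, q Y)) X v =
      f11 (p X, q X) * (fderiv ℝ p X v) ^ 2 +
      (f12 (p X, q X) + f21 (p X, q X)) * (fderiv ℝ p X v * fderiv ℝ q X v) +
      f22 (p X, q X) * (fderiv ℝ q X v) ^ 2 +
      f1 (p X, q X) * D2 p X v + f2 (p X, q X) * D2 q X v := by
  have hev : ∀ᶠ Y in 𝓝 X, fderiv ℝ (fun Y => f (p Y, q Y)) Y =
      f1 (p Y, q Y) • fderiv ℝ p Y + f2 (p Y, q Y) • fderiv ℝ q Y := by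
    have a1 : ∀ᶠ Y in 𝓝 X, DifferentiableAt ℝ p Y :=
      (hp.eventually (by norm_num)).mono fun Y hY => hY.differentiableAt (by norm_num)
    have a2 : ∀ᶠ Y in 𝓝 X, DifferentiableAt ℝ q Y :=
      (hq.eventually (by norm_num)).mono fun Y hY => hY.differentiableAt (by norm_num)
    have a3 : ∀ᶠ Y in 𝓝 X, (p Y, q Y) ∈ S :=
      (hp.continuousAt.prodMk hq.continuousAt).eventually_mem (hS.mem_nhds hz)
    filter_upwards [a1, a2, a3] with Y b1 b2 b3
    exact (fderiv_comp2 hJ b1 b2 b3).fderiv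
  obtain ⟨p1, p2⟩ := hasFDerivAt_two hp
  obtain ⟨q1, q2⟩ := hasFDerivAt_two hq
  have c1 := (hJ.d1 _ hz).comp X (p1.prodMk q1)
  have c2 := (hJ.d2 _ hz).comp X (p1.prodMk q1)
  have t := (c1.smul p2).add (c2.smul q2)
  have t' := t.congr_of_eventuallyEq hev
  unfold D2
  rw [t'.fderiv]
  simp
  ring

end comp

/-- The polynomial `s t` as a jet. -/
lemma jet_mul : Jet (fun z => z.1 * z.2) (fun z => z.2) (fun z => z.1) (fun _ => 0) (fun _ => 1)
    (fun _ => 1) (fun _ => 0) Set.univ := by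
  constructor
  · intro z _
    have h := (hasFDerivAt_fst (𝕜 := ℝ) (p := z)).mul (hasFDerivAt_snd (𝕜 := ℝ) (p := z))
    refine h.congr_fderiv ?_
    ext <;> simp
  · intro z _
    refine (hasFDerivAt_snd (𝕜 := ℝ) (p := z)).congr_fderiv ?_
    ext <;> simp
  · intro z _
    refine (hasFDerivAt_fst (𝕜 := ℝ) (p := z)).congr_fderiv ?_
    ext <;> simp

lemma D2_mul {E : Type*} [NormedAddCommGroup E] [NormedSpace ℝ E] {p q : E → ℝ} {X : E}
    (hp : ContDiffAt ℝ 2 p X) (hq : ContDiffAt ℝ 2 q X) (v : E) :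
    D2 (fun Y => p Y * q Y) X v =
      2 * (fderiv ℝ p X v * fderiv ℝ q X v) + q X * D2 p X v + p X * D2 q X v := by
  have := D2_comp2 isOpen_univ jet_mul hp hq (Set.mem_univ _) v
  simp only at this
  rw [this]; ring

/-- The coordinate `‖X‖`. -/
noncomputable def rr (X : E3) : ℝ := ‖X‖

/-- The coordinate `x = X₂ / ‖X‖`. -/
noncomputable def xx (X : E3) : ℝ := X 2 / ‖X‖

lemma contDiffAt_rr {X : E3} (hX : X ≠ 0) : ContDiffAt ℝ 2 rr X := contDiffAt_norm ℝ hX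

lemma contDiff_coord (i : Fin 3) : ContDiff ℝ 2 (fun X : E3 => X i) := by
  fun_prop

lemma contDiffAt_xx {X : E3} (hX : X ≠ 0) : ContDiffAt ℝ 2 xx X :=
  (contDiff_coord 2).contDiffAt.div (contDiffAt_rr hX) (norm_ne_zero_iff.2 hX)

lemma fderiv_coord (i : Fin 3) (X v : E3) : fderiv ℝ (fun X : E3 => X i) X v = v i := by
  have h : HasFDerivAt (fun X : E3 => X i) (EuclideanSpace.proj i : E3 →L[ℝ] ℝ) X :=
    (EuclideanSpace.proj i : E3 →L[ℝ] ℝ).hasFDerivAt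
  rw [h.fderiv]
  rfl

lemma D2_coord (i : Fin 3) (X v : E3) : D2 (fun X : E3 => X i) X v = 0 := by
  have h : fderiv ℝ (fun X : E3 => X i) = fun _ => (EuclideanSpace.proj i : E3 →L[ℝ] ℝ) := by
    ext1 Y
    exact ((EuclideanSpace.proj i : E3 →L[ℝ] ℝ).hasFDerivAt).fderiv
  unfold D2
  rw [h]
  simp

lemma fderiv_sq (X v : E3) : fderiv ℝ (fun Y : E3 => rr Y * rr Y) X v = 2 * inner ℝ X v := by
  have h : (fun Y : E3 => rr Y * rr Y) = fun Y => ‖Y‖ ^ 2 := by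
    ext Y; simp [rr, sq]
  rw [h]
  have := (hasStrictFDerivAt_norm_sq X).hasFDerivAt
  rw [this.fderiv]
  simp

lemma D2_sq (X v : E3) : D2 (fun Y : E3 => rr Y * rr Y) X v = 2 * ‖v‖ ^ 2 := by
  have h : fderiv ℝ (fun Y : E3 => rr Y * rr Y) = fun Y => (2 : ℝ) • innerSL ℝ Y := by
    ext Y v
    rw [fderiv_sq]; simp
  unfold D2
  rw [h]
  have h2 : HasFDerivAt (fun Y : E3 => (2 : ℝ) • innerSL ℝ Y)
      ((2 : ℝ) • (innerSL ℝ : E3 →L[ℝ] E3 →L[ℝ] ℝ)) X :=
    ((2 : ℝ) • (innerSL ℝ : E3 →L[ℝ] E3 →L[ℝ] ℝ)).hasFDerivAt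
  rw [h2.fderiv]
  have h3 : (innerSL ℝ v) v = ‖v‖ ^ 2 := by
    rw [innerSL_apply_apply, real_inner_self_eq_norm_sq]
  simp only [smul_apply, smul_eq_mul]
  rw [h3]

lemma fderiv_rr {X : E3} (hX : X ≠ 0) (v : E3) : rr X * fderiv ℝ rr X v = inner ℝ X v := by
  have h1 := (contDiffAt_rr hX).differentiableAt (by norm_num)
  have h2 := (h1.hasFDerivAt.mul h1.hasFDerivAt).fderiv
  have h3 := congrArg (fun L : E3 →L[ℝ] ℝ => L v) h2
  have h4 := fderiv_sq X v
  simp only [add_apply, smul_apply, smul_eq_mul] at h3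
  have h5 : fderiv ℝ (fun Y : E3 => rr Y * rr Y) X v = rr X * fderiv ℝ rr X v + rr X * fderiv ℝ rr X v := h3
  linarith

lemma D2_rr {X : E3} (hX : X ≠ 0) (v : E3) :
    rr X * D2 rr X v = ‖v‖ ^ 2 - (fderiv ℝ rr X v) ^ 2 := by
  have h := D2_mul (contDiffAt_rr hX) (contDiffAt_rr hX) v
  rw [D2_sq] at h
  nlinarith [h]

lemma xx_mul_rr {X : E3} : xx X * rr X = X 2 := by
  by_cases hX : X = 0
  · simp [hX, xx, rr]
  · unfold xx rr
    field_simp [norm_ne_zero_iff.2 hX]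

lemma xx_mul_rr_fun : (fun Y : E3 => xx Y * rr Y) = fun Y : E3 => Y 2 := by
  ext Y; exact xx_mul_rr

lemma fderiv_xx {X : E3} (hX : X ≠ 0) (v : E3) :
    rr X * fderiv ℝ xx X v = v 2 - xx X * fderiv ℝ rr X v := by
  have h1 := (contDiffAt_xx hX).differentiableAt (by norm_num)
  have h2 := (contDiffAt_rr hX).differentiableAt (by norm_num)
  have h3 := (h1.hasFDerivAt.mul h2.hasFDerivAt).fderiv
  have h4 := congrArg (fun L : E3 →L[ℝ] ℝ => L v) h3
  simp only [add_apply, smul_apply, smul_eq_mul] at h4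
  have h5 : fderiv ℝ (fun Y : E3 => xx Y * rr Y) X v = xx X * fderiv ℝ rr X v + rr X * fderiv ℝ xx X v := h4
  rw [xx_mul_rr_fun, fderiv_coord] at h5
  linarith

lemma D2_xx {X : E3} (hX : X ≠ 0) (v : E3) :
    rr X * D2 xx X v = - 2 * (fderiv ℝ xx X v * fderiv ℝ rr X v) - xx X * D2 rr X v := by
  have h := D2_mul (contDiffAt_xx hX) (contDiffAt_rr hX) v
  rw [xx_mul_rr_fun, D2_coord] at h
  linarith

/-- The unit vector in direction `i`. -/
noncomputable abbrev ei (i : Fin 3) : E3 := EuclideanSpace.single i (1 : ℝ)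

lemma inner_ei (X : E3) (i : Fin 3) : inner ℝ X (ei i) = X i := by
  simp [ei, EuclideanSpace.inner_single_right]

lemma norm_ei (i : Fin 3) : ‖ei i‖ = 1 := by simp [ei]

lemma rr_sq (X : E3) : rr X ^ 2 = X 0 ^ 2 + X 1 ^ 2 + X 2 ^ 2 := by
  unfold rr
  rw [EuclideanSpace.norm_sq_eq]
  simp [Fin.sum_univ_three]

/-- The Laplacian of `f (‖X‖, X₂ / ‖X‖)`. -/
theorem lap_comp {f f1 f2 f11 f12 f21 f22 : ℝ × ℝ → ℝ} {S : Set (ℝ × ℝ)} (hS : IsOpen S)
    (hJ : Jet f f1 f2 f11 f12 f21 f22 S) {X : E3} (hX : X ≠ 0) (hz : (rr X, xx X) ∈ S) :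
    (∑ i : Fin 3, fderiv ℝ (fderiv ℝ (fun Y => f (rr Y, xx Y))) X
        (EuclideanSpace.single i (1 : ℝ)) (EuclideanSpace.single i (1 : ℝ))) =
      f11 (rr X, xx X) + 2 / rr X * f1 (rr X, xx X) +
        ((1 - xx X ^ 2) * f22 (rr X, xx X) - 2 * xx X * f2 (rr X, xx X)) / rr X ^ 2 := by
  have hr : rr X ≠ 0 := norm_ne_zero_iff.2 hX
  have key : ∀ i : Fin 3, fderiv ℝ (fderiv ℝ (fun Y => f (rr Y, xx Y))) X (ei i) (ei i) =
      D2 (fun Y => f (rr Y, xx Y)) X (ei i) := fun i => rfl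
  simp only [key]
  have A : ∀ i : Fin 3, fderiv ℝ rr X (ei i) = X i / rr X := by
    intro i
    have := fderiv_rr hX (ei i)
    rw [inner_ei] at this
    field_simp
    linarith
  have B : ∀ i : Fin 3, D2 rr X (ei i) = (1 - (X i / rr X) ^ 2) / rr X := by
    intro i
    have := D2_rr hX (ei i)
    rw [norm_ei, A i] at this
    rw [eq_div_iff hr]
    linarith
  have C : ∀ i : Fin 3, fderiv ℝ xx X (ei i) = ((ei i) 2 - xx X * (X i / rr X)) / rr X := by
    intro i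
    have := fderiv_xx hX (ei i)
    rw [A i] at this
    rw [eq_div_iff hr]
    linarith
  have D : ∀ i : Fin 3, D2 xx X (ei i) =
      (- 2 * (((ei i) 2 - xx X * (X i / rr X)) / rr X * (X i / rr X)) -
        xx X * ((1 - (X i / rr X) ^ 2) / rr X)) / rr X := by
    intro i
    have := D2_xx hX (ei i)
    rw [A i, B i, C i] at this
    rw [eq_div_iff hr]
    linarith
  rw [Fin.sum_univ_three]
  rw [D2_comp2 hS hJ (contDiffAt_rr hX) (contDiffAt_xx hX) hz,
    D2_comp2 hS hJ (contDiffAt_rr hX) (contDiffAt_xx hX) hz,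
    D2_comp2 hS hJ (contDiffAt_rr hX) (contDiffAt_xx hX) hz]
  simp only [A, B, C, D]
  have e0 : (ei 0) 2 = 0 := by simp [ei]
  have e1 : (ei 1) 2 = 0 := by simp [ei]
  have e2 : (ei 2) 2 = 1 := by simp [ei]
  rw [e0, e1, e2]
  have h2 : X 2 / rr X = xx X := by
    rw [div_eq_iff hr]; exact xx_mul_rr.symm
  have hab : (X 0 / rr X) ^ 2 + (X 1 / rr X) ^ 2 + xx X ^ 2 = 1 := by
    rw [← h2]
    have := rr_sq X
    field_simp
    linarith
  rw [h2]
  generalize f11 (rr X, xx X) = a11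
  generalize f12 (rr X, xx X) = a12
  generalize f21 (rr X, xx X) = a21
  generalize f22 (rr X, xx X) = a22
  generalize f1 (rr X, xx X) = a1
  generalize f2 (rr X, xx X) = a2
  generalize X 0 / rr X = a at *
  generalize X 1 / rr X = b at *
  generalize xx X = x at *
  generalize rr X = r at *
  linear_combination (exp := 1) (a11 - (a12 + a21) * x / r + a22 * x ^ 2 / r ^ 2 - a1 / r + 3 * a2 * x / r ^ 2) * hab

end Pool.Agent.H31.SG
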