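import Pool.Agent.H31.SG.Glue

/-!
Parametric version of the geometric reduction: the radius `r`, the solution `V`, its radial
derivative `P` and its derivative `W` in `x` at fixed radius are given as functions of `(s, x)`.
No inverse function has to be constructed by the user.
-/

set_option autoImplicit false
open Filter Topology Set

namespace Pool.Agent.H31.SG

/-- The open strip. -/
def Strip (ξ a ρ : ℝ) : Set (ℝ × ℝ) := {z | z.1 ∈ Ioo a ρ ∧ z.2 ∈ Ioo (-ξ) ξ}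

/-- The strip with its right end. -/
def StripC (ξ a ρ : ℝ) : Set (ℝ × ℝ) := {z | z.1 ∈ Ioc a ρ ∧ z.2 ∈ Ioo (-ξ) ξ}

/-- Parametric data: `r` is the radius, `V` the solution, `P` its derivative in the radius, `W` its
derivative in `x` at fixed radius, all as functions of `(s, x)`. -/
structure ParData (ξ a b ρ c : ℝ) (r rs rx V P W Ps Px Ws Wx : ℝ × ℝ → ℝ) : Prop where
  a_pos : 0 < a
  ab : a < b
  bρ : b < ρ
  xi : 1 < ξ
  hr : ∀ z ∈ Strip ξ a ρ, HasFDerivAt r (lin (rs z) (rx z)) z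
  rs_pos : ∀ z ∈ Strip ξ a ρ, 0 < rs z
  crs : ContinuousOn rs (Strip ξ a ρ)
  crx : ContinuousOn rx (Strip ξ a ρ)
  hV : ∀ z ∈ Strip ξ a ρ, HasFDerivAt V (lin (P z * rs z) (P z * rx z + W z)) z
  hP : ∀ z ∈ Strip ξ a ρ, HasFDerivAt P (lin (Ps z) (Px z)) z
  hW : ∀ z ∈ Strip ξ a ρ, HasFDerivAt W (lin (Ws z) (Wx z)) z
  cPs : ContinuousOn Ps (Strip ξ a ρ)
  cPx : ContinuousOn Px (Strip ξ a ρ)
  cWs : ContinuousOn Ws (Strip ξ a ρ)
  cWx : ContinuousOn Wx (Strip ξ a ρ)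
  cr : ContinuousOn r (StripC ξ a ρ)
  cV : ContinuousOn V (StripC ξ a ρ)
  cP : ContinuousOn P (StripC ξ a ρ)
  cW : ContinuousOn W (StripC ξ a ρ)
  id : ∀ z ∈ Strip ξ a ρ, z.1 < b → r z = z.1
  bV : ∀ x ∈ Icc (-1 : ℝ) 1, V (ρ, x) = c
  bP : ∀ x ∈ Icc (-1 : ℝ) 1, P (ρ, x) = 0
  bW : ∀ x ∈ Icc (-1 : ℝ) 1, W (ρ, x) = 0
  pde : ∀ z ∈ Strip ξ a ρ, z.2 ∈ Icc (-1 : ℝ) 1 →
    Ps z / rs z + 2 / r z * P z +
      ((1 - z.2 ^ 2) * (Wx z - Ws z * rx z / rs z) - 2 * z.2 * W z) / r z ^ 2 + V z = 0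

variable {ξ a b ρ c : ℝ} {r rs rx V P W Ps Px Ws Wx : ℝ × ℝ → ℝ}

lemma isOpen_strip (ξ a ρ : ℝ) : IsOpen (Strip ξ a ρ) :=
  (isOpen_Ioo.preimage continuous_fst).inter (isOpen_Ioo.preimage continuous_snd)

lemma strip_sub (ξ a ρ : ℝ) : Strip ξ a ρ ⊆ StripC ξ a ρ := fun _ hz =>
  ⟨⟨hz.1.1, hz.1.2.le⟩, hz.2⟩

/-- The image of the strip. -/
def Img (ξ a ρ : ℝ) (r : ℝ × ℝ → ℝ) : Set (ℝ × ℝ) :=
  {z | z.2 ∈ Ioo (-ξ) ξ ∧ a < z.1 ∧ z.1 < r (ρ, z.2)}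

namespace ParData

lemma aρ (h : ParData ξ a b ρ c r rs rx V P W Ps Px Ws Wx) : a < ρ := h.ab.trans h.bρ

lemma slice (h : ParData ξ a b ρ c r rs rx V P W Ps Px Ws Wx) {x : ℝ} (hx : x ∈ Ioo (-ξ) ξ) :
    ContinuousOn (fun s => r (s, x)) (Ioc a ρ) := by
  refine h.cr.comp (by fun_prop) ?_
  intro s hs
  exact ⟨hs, hx⟩

lemma mono (h : ParData ξ a b ρ c r rs rx V P W Ps Px Ws Wx) {x : ℝ} (hx : x ∈ Ioo (-ξ) ξ) :
    StrictMonoOn (fun s => r (s, x)) (Ioc a ρ) := by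
  refine strictMonoOn_of_deriv_pos (convex_Ioc a ρ) (h.slice hx) ?_
  intro s hs
  rw [interior_Ioc] at hs
  have hz : (s, x) ∈ Strip ξ a ρ := ⟨hs, hx⟩
  have e1 : HasDerivAt (fun s : ℝ => ((s, x) : ℝ × ℝ)) ((1 : ℝ), (0 : ℝ)) s :=
    (hasDerivAt_id s).prodMk (hasDerivAt_const s x)
  have e2 := (h.hr _ hz).comp_hasDerivAt s e1
  have e3 : HasDerivAt (fun s => r (s, x)) (rs (s, x)) s := e2.congr_deriv (by simp)
  rw [e3.deriv]
  exact h.rs_pos _ hz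

lemma end_contAt (h : ParData ξ a b ρ c r rs rx V P W Ps Px Ws Wx) :
    ContinuousOn (fun x => r (ρ, x)) (Ioo (-ξ) ξ) := by
  refine h.cr.comp (by fun_prop) ?_
  intro x hx
  exact ⟨⟨h.aρ, le_rfl⟩, hx⟩

lemma isOpen_img (h : ParData ξ a b ρ c r rs rx V P W Ps Px Ws Wx) : IsOpen (Img ξ a ρ r) := by
  have e1 : IsOpen {z : ℝ × ℝ | z.2 ∈ Ioo (-ξ) ξ} := isOpen_Ioo.preimage continuous_snd
  have e2 : ContinuousOn (fun z : ℝ × ℝ => r (ρ, z.2) - z.1) {z : ℝ × ℝ | z.2 ∈ Ioo (-ξ) ξ} :=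
    (h.end_contAt.comp continuousOn_snd (fun z hz => hz)).sub continuousOn_fst
  have e3 := e2.isOpen_inter_preimage e1 isOpen_Ioi (t := Ioi (0 : ℝ))
  have e4 : IsOpen {z : ℝ × ℝ | a < z.1} := isOpen_lt continuous_const continuous_fst
  have e5 : Img ξ a ρ r = ({z : ℝ × ℝ | z.2 ∈ Ioo (-ξ) ξ} ∩
      (fun z : ℝ × ℝ => r (ρ, z.2) - z.1) ⁻¹' Ioi 0) ∩ {z : ℝ × ℝ | a < z.1} := by
    ext z
    simp only [Img, Set.mem_ofPred_eq, mem_inter_iff, mem_preimage, mem_Ioi, sub_pos]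
    tauto
  rw [e5]
  exact e3.inter e4

lemma exists_sigma (h : ParData ξ a b ρ c r rs rx V P W Ps Px Ws Wx) {z : ℝ × ℝ}
    (hz : z ∈ Img ξ a ρ r) : ∃ s ∈ Ioo a ρ, r (s, z.2) = z.1 := by
  obtain ⟨hx, h1, h2⟩ := hz
  have hab := h.ab
  have hbρ := h.bρ
  obtain ⟨s1, hs1, hs1b, hs1z⟩ : ∃ s1, a < s1 ∧ s1 < b ∧ s1 < z.1 := by
    obtain ⟨t, ht1, ht2⟩ := exists_between (lt_min hab h1)
    exact ⟨t, ht1, ht2.trans_le (min_le_left _ _), ht2.trans_le (min_le_right _ _)⟩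
  have hid : r (s1, z.2) = s1 := h.id (s1, z.2) ⟨⟨hs1, by linarith⟩, hx⟩ hs1b
  have hc : ContinuousOn (fun s => r (s, z.2)) (Icc s1 ρ) :=
    (h.slice hx).mono (fun s hs => ⟨hs1.trans_le hs.1, hs.2⟩)
  have := intermediate_value_Ioo (by linarith : s1 ≤ ρ) hc
  obtain ⟨s, hs, hs2⟩ := this (show z.1 ∈ Ioo (r (s1, z.2)) (r (ρ, z.2)) from
    ⟨by rw [hid]; exact hs1z, h2⟩)
  exact ⟨s, ⟨hs1.trans hs.1, hs.2⟩, hs2⟩

end ParData

open Classical in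
/-- The parameter as a function of `(r, x)`. -/
noncomputable def sig (a ρ : ℝ) (r : ℝ × ℝ → ℝ) (z : ℝ × ℝ) : ℝ :=
  if hz : ∃ s ∈ Ioo a ρ, r (s, z.2) = z.1 then hz.choose else 0

namespace ParData

lemma sig_spec (h : ParData ξ a b ρ c r rs rx V P W Ps Px Ws Wx) {z : ℝ × ℝ}
    (hz : z ∈ Img ξ a ρ r) : sig a ρ r z ∈ Ioo a ρ ∧ r (sig a ρ r z, z.2) = z.1 := by
  have hh := h.exists_sigma hz
  unfold sig
  rw [dif_pos hh]
  exact hh.choose_spec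

lemma sig_mem (h : ParData ξ a b ρ c r rs rx V P W Ps Px Ws Wx) {z : ℝ × ℝ}
    (hz : z ∈ Img ξ a ρ r) : (sig a ρ r z, z.2) ∈ Strip ξ a ρ :=
  ⟨(h.sig_spec hz).1, hz.1⟩

lemma lt_sig (h : ParData ξ a b ρ c r rs rx V P W Ps Px Ws Wx) {z : ℝ × ℝ}
    (hz : z ∈ Img ξ a ρ r) {s : ℝ} (hs : s ∈ Ioc a ρ) (hr : r (s, z.2) < z.1) :
    s < sig a ρ r z := by
  obtain ⟨h1, h2⟩ := h.sig_spec hz
  rw [← h2] at hr
  exact (h.mono hz.1).lt_iff_lt hs ⟨h1.1, h1.2.le⟩ |>.1 hr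

lemma sig_lt (h : ParData ξ a b ρ c r rs rx V P W Ps Px Ws Wx) {z : ℝ × ℝ}
    (hz : z ∈ Img ξ a ρ r) {s : ℝ} (hs : s ∈ Ioc a ρ) (hr : z.1 < r (s, z.2)) :
    sig a ρ r z < s := by
  obtain ⟨h1, h2⟩ := h.sig_spec hz
  rw [← h2] at hr
  exact (h.mono hz.1).lt_iff_lt ⟨h1.1, h1.2.le⟩ hs |>.1 hr

lemma slice_contAt (h : ParData ξ a b ρ c r rs rx V P W Ps Px Ws Wx) {s x : ℝ}
    (hs : s ∈ Ioo a ρ) (hx : x ∈ Ioo (-ξ) ξ) : ContinuousAt (fun z : ℝ × ℝ => r (s, z.2)) (s, x) := by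
  have e : ContinuousAt r (s, x) := (h.hr (s, x) ⟨hs, hx⟩).continuousAt
  exact e.comp (f := fun z : ℝ × ℝ => ((s, z.2) : ℝ × ℝ)) (x := (s, x)) (by fun_prop)

lemma slice_contAt' (h : ParData ξ a b ρ c r rs rx V P W Ps Px Ws Wx) {s : ℝ} {z : ℝ × ℝ}
    (hs : s ∈ Ioo a ρ) (hx : z.2 ∈ Ioo (-ξ) ξ) : ContinuousAt (fun w : ℝ × ℝ => r (s, w.2)) z := by
  have e : ContinuousAt r (s, z.2) := (h.hr (s, z.2) ⟨hs, hx⟩).continuousAt
  exact ContinuousAt.comp (f := fun w : ℝ × ℝ => ((s, w.2) : ℝ × ℝ)) (g := r) (x := z) e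
    (by fun_prop)

lemma sig_contAt (h : ParData ξ a b ρ c r rs rx V P W Ps Px Ws Wx) {z : ℝ × ℝ}
    (hz : z ∈ Img ξ a ρ r) : ContinuousAt (sig a ρ r) z := by
  obtain ⟨h1, h2⟩ := h.sig_spec hz
  have hev : ∀ᶠ w in 𝓝 z, w ∈ Img ξ a ρ r := h.isOpen_img.mem_nhds hz
  refine tendsto_order.2 ⟨fun l hl => ?_, fun l hl => ?_⟩
  · obtain ⟨s, hs1, hs2⟩ := exists_between (max_lt hl h1.1)
    have hs1' : l < s := (le_max_left _ _).trans_lt hs1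
    have hs1'' : a < s := (le_max_right _ _).trans_lt hs1
    have hs : s ∈ Ioo a ρ := ⟨hs1'', hs2.trans h1.2⟩
    have hlt : r (s, z.2) < z.1 := by
      rw [← h2]
      exact h.mono hz.1 ⟨hs.1, hs.2.le⟩ ⟨h1.1, h1.2.le⟩ hs2
    have := (h.slice_contAt' hs hz.1).eventually_lt continuous_fst.continuousAt hlt
    filter_upwards [this, hev] with w hw hw2
    exact hs1'.trans (h.lt_sig hw2 ⟨hs.1, hs.2.le⟩ hw)
  · obtain ⟨s, hs1, hs2⟩ := exists_between (lt_min hl h1.2)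
    have hs2' : s < l := hs2.trans_le (min_le_left _ _)
    have hs2'' : s < ρ := hs2.trans_le (min_le_right _ _)
    have hs : s ∈ Ioo a ρ := ⟨h1.1.trans hs1, hs2''⟩
    have hlt : z.1 < r (s, z.2) := by
      rw [← h2]
      exact h.mono hz.1 ⟨h1.1, h1.2.le⟩ ⟨hs.1, hs.2.le⟩ hs1
    have := continuous_fst.continuousAt.eventually_lt (h.slice_contAt' hs hz.1) hlt
    filter_upwards [this, hev] with w hw hw2
    exact (h.sig_lt hw2 ⟨hs.1, hs.2.le⟩ hw).trans hs2'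

/-- The inverse of the coordinate change. -/
noncomputable def inv (a ρ : ℝ) (r : ℝ × ℝ → ℝ) (z : ℝ × ℝ) : ℝ × ℝ := (sig a ρ r z, z.2)

lemma inv_contAt (h : ParData ξ a b ρ c r rs rx V P W Ps Px Ws Wx) {z : ℝ × ℝ}
    (hz : z ∈ Img ξ a ρ r) : ContinuousAt (inv a ρ r) z :=
  (h.sig_contAt hz).prodMk continuous_snd.continuousAt

lemma inv_mem (h : ParData ξ a b ρ c r rs rx V P W Ps Px Ws Wx) {z : ℝ × ℝ}
    (hz : z ∈ Img ξ a ρ r) : inv a ρ r z ∈ Strip ξ a ρ := h.sig_mem hz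

/-- The derivative of the coordinate change as an equivalence. -/
noncomputable def eqv (p q : ℝ) (hp : p ≠ 0) : (ℝ × ℝ) ≃L[ℝ] (ℝ × ℝ) :=
  ContinuousLinearEquiv.equivOfInverse
    ((lin p q).prod (ContinuousLinearMap.snd ℝ ℝ ℝ))
    ((lin (1 / p) (- q / p)).prod (ContinuousLinearMap.snd ℝ ℝ ℝ))
    (by
      intro z
      ext
      · simp
        field_simp
        ring
      · simp)
    (by
      intro z
      ext
      · simp
        field_simp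
        ring
      · simp)

lemma inv_deriv (h : ParData ξ a b ρ c r rs rx V P W Ps Px Ws Wx) {z : ℝ × ℝ}
    (hz : z ∈ Img ξ a ρ r) :
    HasFDerivAt (inv a ρ r)
      ((lin (1 / rs (inv a ρ r z)) (- rx (inv a ρ r z) / rs (inv a ρ r z))).prod
        (ContinuousLinearMap.snd ℝ ℝ ℝ)) z := by
  have hm := h.inv_mem hz
  have hne : rs (inv a ρ r z) ≠ 0 := (h.rs_pos _ hm).ne'
  have hf : HasFDerivAt (fun w : ℝ × ℝ => (r w, w.2))
      ((eqv (rs (inv a ρ r z)) (rx (inv a ρ r z)) hne : (ℝ × ℝ) ≃L[ℝ] (ℝ × ℝ)) :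
        (ℝ × ℝ) →L[ℝ] (ℝ × ℝ)) (inv a ρ r z) :=
    (h.hr _ hm).prodMk hasFDerivAt_snd
  have hfg : ∀ᶠ y in 𝓝 z, (fun w : ℝ × ℝ => (r w, w.2)) (inv a ρ r y) = y := by
    filter_upwards [h.isOpen_img.mem_nhds hz] with y hy
    exact Prod.ext (h.sig_spec hy).2 rfl
  exact HasFDerivAt.of_local_left_inverse (h.inv_contAt hz) hf hfg

lemma comp_inv (h : ParData ξ a b ρ c r rs rx V P W Ps Px Ws Wx) {g g1 g2 : ℝ × ℝ → ℝ}
    (hg : ∀ z ∈ Strip ξ a ρ, HasFDerivAt g (lin (g1 z) (g2 z)) z) {z : ℝ × ℝ}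
    (hz : z ∈ Img ξ a ρ r) :
    HasFDerivAt (fun w => g (inv a ρ r w))
      (lin (g1 (inv a ρ r z) / rs (inv a ρ r z))
        (g2 (inv a ρ r z) - g1 (inv a ρ r z) * rx (inv a ρ r z) / rs (inv a ρ r z))) z := by
  have e := (hg _ (h.inv_mem hz)).comp z (h.inv_deriv hz)
  refine e.congr_fderiv ?_
  ext
  · simp
    ring
  · simp
    ring

/-- The image of the strip contains the region below the graph. -/
lemma below_sub (h : ParData ξ a b ρ c r rs rx V P W Ps Px Ws Wx) (z : ℝ × ℝ)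
    (hz : z ∈ Below (fun x => r (ρ, x))) (hz2 : a < z.1) : z ∈ Img ξ a ρ r :=
  ⟨⟨by linarith [hz.2.1, h.xi], by linarith [hz.2.2, h.xi]⟩, hz2, hz.1⟩

lemma sig_tendsto (h : ParData ξ a b ρ c r rs rx V P W Ps Px Ws Wx) {x : ℝ}
    (hx : x ∈ Icc (-1 : ℝ) 1) (hR : a < r (ρ, x)) :
    Tendsto (inv a ρ r) (𝓝[Below (fun x => r (ρ, x))] (r (ρ, x), x)) (𝓝[StripC ξ a ρ] (ρ, x)) := by
  have hx' : x ∈ Ioo (-ξ) ξ := ⟨by linarith [hx.1, h.xi], by linarith [hx.2, h.xi]⟩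
  have hfst : Tendsto (fun w : ℝ × ℝ => w.1) (𝓝 (r (ρ, x), x)) (𝓝 (r (ρ, x))) :=
    continuous_fst.tendsto _
  have hev1 : ∀ᶠ w : ℝ × ℝ in 𝓝[Below (fun x => r (ρ, x))] (r (ρ, x), x), a < w.1 :=
    (hfst.eventually_const_lt hR).filter_mono nhdsWithin_le_nhds
  have hev : ∀ᶠ w : ℝ × ℝ in 𝓝[Below (fun x => r (ρ, x))] (r (ρ, x), x), w ∈ Img ξ a ρ r := by
    filter_upwards [hev1, self_mem_nhdsWithin] with w hw hw2
    exact h.below_sub w hw2 hw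
  refine tendsto_nhdsWithin_iff.2 ⟨?_, ?_⟩
  · refine Tendsto.prodMk_nhds ?_ ?_
    · refine tendsto_order.2 ⟨fun l hl => ?_, fun l hl => ?_⟩
      · obtain ⟨s, hs1, hs2⟩ := exists_between (max_lt hl h.aρ)
        have hs1' : l < s := (le_max_left _ _).trans_lt hs1
        have hs1'' : a < s := (le_max_right _ _).trans_lt hs1
        have hs : s ∈ Ioo a ρ := ⟨hs1'', hs2⟩
        have hlt : r (s, x) < r (ρ, x) := h.mono hx' ⟨hs.1, hs.2.le⟩ ⟨h.aρ, le_rfl⟩ hs2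
        have e1 : ContinuousAt (fun w : ℝ × ℝ => r (s, w.2)) (r (ρ, x), x) :=
          h.slice_contAt' (z := (r (ρ, x), x)) hs hx'
        have := (e1.eventually_lt continuous_fst.continuousAt hlt).filter_mono
          (nhdsWithin_le_nhds (s := Below (fun x => r (ρ, x))))
        filter_upwards [this, hev] with w hw hw2
        exact hs1'.trans (h.lt_sig hw2 ⟨hs.1, hs.2.le⟩ hw)
      · filter_upwards [hev] with w hw
        exact (h.sig_spec hw).1.2.trans hl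
    · exact continuous_snd.continuousAt.tendsto.mono_left nhdsWithin_le_nhds
  · filter_upwards [hev] with w hw
    exact strip_sub _ _ _ (h.inv_mem hw)

/-- The parametric geometric reduction. -/
theorem notSchiffer (h : ParData ξ a b ρ c r rs rx V P W Ps Px Ws Wx) (hc : c ≠ 0) {r1 : ℝ}
    (hR : RadFun (fun x => r (ρ, x)) r1 ξ) (hb : b ≤ r1) {u0 : E3 → ℝ}
    (hu0 : ContDiffOn ℝ 2 u0 (Metric.ball 0 b))
    (pde0 : ∀ X ∈ Metric.ball (0 : E3) b,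
      (∑ i : Fin 3, fderiv ℝ (fderiv ℝ u0) X (EuclideanSpace.single i (1 : ℝ))
        (EuclideanSpace.single i (1 : ℝ))) + u0 X = 0)
    (glue : ∀ X : E3, a < ‖X‖ → ‖X‖ < b → u0 X = V (‖X‖, xx X)) : NotSchiffer := by
  have hab := h.ab
  have hbρ := h.bρ
  have haR : ∀ x ∈ Icc (-1 : ℝ) 1, a < r (ρ, x) := fun x hx => by
    have := hR.lt x hx
    linarith
  have hIcc : ∀ x ∈ Icc (-1 : ℝ) 1, x ∈ Ioo (-ξ) ξ := fun x hx =>
    ⟨by linarith [hx.1, h.xi], by linarith [hx.2, h.xi]⟩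
  have hcomp : ∀ {g : ℝ × ℝ → ℝ}, ContinuousOn g (Strip ξ a ρ) →
      ContinuousOn (fun w => g (inv a ρ r w)) (Img ξ a ρ r) := by
    intro g hg
    exact hg.comp (fun z hz => (h.inv_contAt hz).continuousWithinAt) (fun z hz => h.inv_mem hz)
  have hlim : ∀ {g : ℝ × ℝ → ℝ}, ContinuousOn g (StripC ξ a ρ) → ∀ x ∈ Icc (-1 : ℝ) 1,
      Tendsto (fun w => g (inv a ρ r w)) (𝓝[Below (fun x => r (ρ, x))] (r (ρ, x), x))
        (𝓝 (g (ρ, x))) := by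
    intro g hg x hx
    have e : ContinuousWithinAt g (StripC ξ a ρ) (ρ, x) := hg _ ⟨⟨h.aρ, le_rfl⟩, hIcc x hx⟩
    exact e.tendsto.comp (h.sig_tendsto hx (haR x hx))
  have crs0 : ∀ z ∈ Strip ξ a ρ, rs z ≠ 0 := fun z hz => (h.rs_pos z hz).ne'
  refine geo (a := a) (b := b) (c := c) (S := Img ξ a ρ r)
    (U := fun w => V (inv a ρ r w)) (U1 := fun w => P (inv a ρ r w))
    (U2 := fun w => W (inv a ρ r w))
    (U11 := fun w => (fun z => Ps z / rs z) (inv a ρ r w))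
    (U12 := fun w => (fun z => Px z - Ps z * rx z / rs z) (inv a ρ r w))
    (U21 := fun w => (fun z => Ws z / rs z) (inv a ρ r w))
    (U22 := fun w => (fun z => Wx z - Ws z * rx z / rs z) (inv a ρ r w))
    hR h.a_pos h.ab hb hc h.isOpen_img h.below_sub ?_ ?_ ?_ ?_ ?_ ?_ ?_ ?_ ?_ hu0 pde0 ?_
  · refine ⟨?_, ?_, ?_⟩
    · intro z hz
      refine (h.comp_inv h.hV hz).congr_fderiv ?_
      have hne := crs0 _ (h.inv_mem hz)
      congr 1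
      · field_simp
      · field_simp
        ring
    · intro z hz
      exact h.comp_inv h.hP hz
    · intro z hz
      exact h.comp_inv h.hW hz
  · exact hcomp (h.cPs.div h.crs crs0)
  · exact hcomp (h.cPx.sub ((h.cPs.mul h.crx).div h.crs crs0))
  · exact hcomp (h.cWs.div h.crs crs0)
  · exact hcomp (h.cWx.sub ((h.cWs.mul h.crx).div h.crs crs0))
  · intro z hz hz2
    have hzI := h.below_sub z hz hz2
    have e := h.pde _ (h.inv_mem hzI) hz.2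
    have e1 : r (inv a ρ r z) = z.1 := (h.sig_spec hzI).2
    have e2 : (inv a ρ r z).2 = z.2 := rfl
    rw [e1, e2] at e
    exact e
  · intro x hx
    have := hlim h.cV x hx
    rw [h.bV x hx] at this
    exact this
  · intro x hx
    have := hlim h.cP x hx
    rw [h.bP x hx] at this
    exact this
  · intro x hx
    have := hlim h.cW x hx
    rw [h.bW x hx] at this
    exact this
  · intro X hX1 hX2
    rw [glue X hX1 hX2]
    have hx := hIcc _ (xx_mem X)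
    have hmem : ((‖X‖, xx X) : ℝ × ℝ) ∈ Strip ξ a ρ := ⟨⟨hX1, by linarith⟩, hx⟩
    have hI : ((‖X‖, xx X) : ℝ × ℝ) ∈ Img ξ a ρ r := by
      refine ⟨hx, hX1, ?_⟩
      have := hR.lt _ (xx_mem X)
      show ‖X‖ < _
      linarith
    obtain ⟨s1, s2⟩ := h.sig_spec hI
    have e1 : r (‖X‖, xx X) = ‖X‖ := h.id _ hmem hX2
    have e2 : sig a ρ r (‖X‖, xx X) = ‖X‖ := by
      have := (h.mono hx).injOn ⟨s1.1, s1.2.le⟩ ⟨hX1, by linarith⟩ (s2.trans e1.symm)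
      exact this
    show V (‖X‖, xx X) = V (sig a ρ r (‖X‖, xx X), xx X)
    rw [e2]

end ParData

end Pool.Agent.H31.SG
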