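import Pool.Agent.H31.SG.Lap
import Pool.Agent.H31.SG.Gk
import Pool.Agent.H27.Leg.Poly

/-!
Solid harmonics `S k`, the functions `psi k = gk k (‖X‖²) S k X` (which are
`j_k (‖X‖) P_k (X₂ / ‖X‖)`), their `C²` bounds on the ball of radius two and the equation
`Δ psi + psi = 0`.
-/

set_option autoImplicit false
open Filter Topology Set Polynomial

namespace Pool.Agent.H31.SG

open Pool.Agent.H68.SC (jl djl jl_rec jl_deriv jl_ode)
open Pool.Agent.H27.Leg (P rec_eval ode_eval)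

section abs
variable {E : Type*} [NormedAddCommGroup E] [InnerProductSpace ℝ E]

/-- The inner product as a bilinear map. -/
noncomputable def inn : E →L[ℝ] E →L[ℝ] ℝ :=
  LinearMap.mkContinuous₂ (innerₗ E) 1 (fun x y => by
    rw [one_mul, Real.norm_eq_abs]
    exact abs_real_inner_le_norm x y)

lemma inn_apply (X Y : E) : inn X Y = inner ℝ X Y := rfl

lemma norm_inn_apply (X : E) : ‖inn X‖ ≤ ‖X‖ := by
  refine ContinuousLinearMap.opNorm_le_bound _ (norm_nonneg X) (fun Y => ?_)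
  rw [inn_apply, Real.norm_eq_abs]
  exact abs_real_inner_le_norm X Y

lemma norm_inn : ‖(inn : E →L[ℝ] E →L[ℝ] ℝ)‖ ≤ 1 := by
  refine ContinuousLinearMap.opNorm_le_bound _ (by norm_num) (fun X => ?_)
  rw [one_mul]
  exact norm_inn_apply X

lemma inn_hasFDerivAt (X : E) : HasFDerivAt (fun Y : E => inn Y) (inn : E →L[ℝ] E →L[ℝ] ℝ) X :=
  (inn : E →L[ℝ] E →L[ℝ] ℝ).hasFDerivAt

/-- `C²` bounds on the ball of radius two. -/
structure CB (f : E → ℝ) (N : ℝ) : Prop where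
  cd : ContDiff ℝ 2 f
  bd : ∀ X ∈ Metric.ball (0 : E) 2, ∀ i : ℕ, i ≤ 2 → ‖iteratedFDeriv ℝ i f X‖ ≤ N

lemma CB.nonneg {f : E → ℝ} {N : ℝ} (h : CB f N) : 0 ≤ N :=
  (norm_nonneg _).trans (h.bd 0 (by simp) 0 (by norm_num))

lemma CB.mono {f : E → ℝ} {N M : ℝ} (h : CB f N) (hM : N ≤ M) : CB f M :=
  ⟨h.cd, fun X hX i hi => (h.bd X hX i hi).trans hM⟩

lemma norm_iter_two (f : E → ℝ) (X : E) :
    ‖iteratedFDeriv ℝ 2 f X‖ = ‖fderiv ℝ (fderiv ℝ f) X‖ := by
  rw [← norm_iteratedFDeriv_one, norm_iteratedFDeriv_fderiv]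

lemma cb_of {f : E → ℝ} {N : ℝ} (cd : ContDiff ℝ 2 f)
    (h0 : ∀ X ∈ Metric.ball (0 : E) 2, |f X| ≤ N)
    (h1 : ∀ X ∈ Metric.ball (0 : E) 2, ‖fderiv ℝ f X‖ ≤ N)
    (h2 : ∀ X ∈ Metric.ball (0 : E) 2, ‖fderiv ℝ (fderiv ℝ f) X‖ ≤ N) : CB f N := by
  refine ⟨cd, fun X hX i hi => ?_⟩
  interval_cases i
  · rw [norm_iteratedFDeriv_zero]; exact h0 X hX
  · rw [norm_iteratedFDeriv_one]; exact h1 X hX
  · rw [norm_iter_two]; exact h2 X hX

lemma CB.val {f : E → ℝ} {N : ℝ} (h : CB f N) {X : E} (hX : X ∈ Metric.ball (0 : E) 2) :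
    |f X| ≤ N := by
  have := h.bd X hX 0 (by norm_num)
  rwa [norm_iteratedFDeriv_zero] at this

lemma CB.der {f : E → ℝ} {N : ℝ} (h : CB f N) {X : E} (hX : X ∈ Metric.ball (0 : E) 2) :
    ‖fderiv ℝ f X‖ ≤ N := by
  have := h.bd X hX 1 (by norm_num)
  rwa [norm_iteratedFDeriv_one] at this

lemma CB.der2 {f : E → ℝ} {N : ℝ} (h : CB f N) {X : E} (hX : X ∈ Metric.ball (0 : E) 2) :
    ‖fderiv ℝ (fderiv ℝ f) X‖ ≤ N := by
  have := h.bd X hX 2 (by norm_num)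
  rwa [norm_iter_two] at this

lemma CB.mul {f g : E → ℝ} {N M : ℝ} (hf : CB f N) (hg : CB g M) :
    CB (fun X => f X * g X) (4 * N * M) := by
  refine ⟨hf.cd.mul hg.cd, fun X hX i hi => ?_⟩
  have hN := hf.nonneg
  have hM := hg.nonneg
  have h := norm_iteratedFDeriv_mul_le hf.cd hg.cd X (n := i) (by exact_mod_cast hi)
  refine h.trans ?_
  have h2 : ∀ j ∈ Finset.range (i + 1), (i.choose j : ℝ) * ‖iteratedFDeriv ℝ j f X‖ *
      ‖iteratedFDeriv ℝ (i - j) g X‖ ≤ (i.choose j : ℝ) * (N * M) := by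
    intro j hj
    rw [mul_assoc]
    have a1 := hf.bd X hX j (by have := Finset.mem_range.1 hj; omega)
    have a2 := hg.bd X hX (i - j) (by omega)
    gcongr
  refine (Finset.sum_le_sum h2).trans ?_
  rw [← Finset.sum_mul]
  have h3 : ∑ j ∈ Finset.range (i + 1), (i.choose j : ℝ) = 2 ^ i := by
    exact_mod_cast Nat.sum_range_choose i
  rw [h3]
  have h4 : (2 : ℝ) ^ i ≤ 4 := by
    calc (2 : ℝ) ^ i ≤ 2 ^ 2 := pow_le_pow_right₀ (by norm_num) hi
      _ = 4 := by norm_num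
  nlinarith [mul_nonneg hN hM]

lemma CB.add {f g : E → ℝ} {N M : ℝ} (hf : CB f N) (hg : CB g M) :
    CB (fun X => f X + g X) (N + M) := by
  refine ⟨hf.cd.add hg.cd, fun X hX i hi => ?_⟩
  have e : iteratedFDeriv ℝ i (f + g) X =
      iteratedFDeriv ℝ i f X + iteratedFDeriv ℝ i g X :=
    iteratedFDeriv_add_apply ((hf.cd.of_le (by exact_mod_cast hi)).contDiffAt)
      ((hg.cd.of_le (by exact_mod_cast hi)).contDiffAt)
  have e' : (fun X => f X + g X) = f + g := rfl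
  rw [e', e]
  exact (norm_add_le _ _).trans (add_le_add (hf.bd X hX i hi) (hg.bd X hX i hi))

lemma CB.const_mul {f : E → ℝ} {N : ℝ} (hf : CB f N) (c : ℝ) :
    CB (fun X => c * f X) (|c| * N) := by
  refine ⟨contDiff_const.mul hf.cd, fun X hX i hi => ?_⟩
  have e : iteratedFDeriv ℝ i (fun X => c * f X) X = c • iteratedFDeriv ℝ i f X := by
    have := iteratedFDeriv_const_smul_apply' (a := c) (x := X) (i := i) (f := f)
      ((hf.cd.of_le (by exact_mod_cast hi)).contDiffAt)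
    simpa [smul_eq_mul] using this
  rw [e, norm_smul, Real.norm_eq_abs]
  exact mul_le_mul_of_nonneg_left (hf.bd X hX i hi) (abs_nonneg c)

lemma cb_one : CB (fun _ : E => (1 : ℝ)) 1 := by
  have hf : fderiv ℝ (fun _ : E => (1 : ℝ)) = fun _ => 0 := by
    ext1 X
    exact (hasFDerivAt_const (1 : ℝ) X).fderiv
  refine cb_of contDiff_const ?_ ?_ ?_ <;> intro X hX
  · simp
  · rw [hf]
    simp
  · rw [hf]
    have h1 : HasFDerivAt (fun _ : E => (0 : E →L[ℝ] ℝ)) (0 : E →L[ℝ] E →L[ℝ] ℝ) X :=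
      hasFDerivAt_const _ _
    rw [h1.fderiv]
    have h2 : ‖(0 : E →L[ℝ] E →L[ℝ] ℝ)‖ = 0 := norm_zero (E := E →L[ℝ] E →L[ℝ] ℝ)
    linarith

lemma cb_inner {e : E} (he : ‖e‖ ≤ 1) : CB (fun X : E => inner ℝ e X) 2 := by
  have hf : fderiv ℝ (fun X : E => inner ℝ e X) = fun _ => inn e := by
    ext1 X
    exact (inn e).hasFDerivAt.fderiv
  refine cb_of (inn e).contDiff ?_ ?_ ?_ <;> intro X hX
  · have h1 := abs_real_inner_le_norm e X
    have h2 : ‖X‖ < 2 := by simpa using hX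
    have := norm_nonneg X
    have := norm_nonneg e
    nlinarith
  · rw [hf]
    have := norm_inn_apply e
    linarith
  · rw [hf]
    have h1 : HasFDerivAt (fun _ : E => inn e) (0 : E →L[ℝ] E →L[ℝ] ℝ) X :=
      hasFDerivAt_const _ _
    rw [h1.fderiv]
    have h2 : ‖(0 : E →L[ℝ] E →L[ℝ] ℝ)‖ = 0 := norm_zero (E := E →L[ℝ] E →L[ℝ] ℝ)
    linarith

lemma normsq_hasFDerivAt (X : E) : HasFDerivAt (fun Y : E => ‖Y‖ ^ 2) ((2 : ℝ) • inn X) X := by
  have h := (hasStrictFDerivAt_norm_sq X).hasFDerivAt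
  refine h.congr_fderiv ?_
  ext v
  simp [inn_apply]

lemma cb_normsq : CB (fun X : E => ‖X‖ ^ 2) 4 := by
  have hf : fderiv ℝ (fun X : E => ‖X‖ ^ 2) = fun X => (2 : ℝ) • inn X := by
    ext1 X
    exact (normsq_hasFDerivAt X).fderiv
  refine cb_of (contDiff_norm_sq ℝ) ?_ ?_ ?_ <;> intro X hX
  · have h2 : ‖X‖ < 2 := by simpa using hX
    have h3 := norm_nonneg X
    rw [abs_of_nonneg (by positivity)]
    nlinarith
  · have h2 : ‖X‖ < 2 := by simpa using hX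
    rw [hf]
    show ‖(2 : ℝ) • inn X‖ ≤ 4
    rw [norm_smul, Real.norm_of_nonneg (by norm_num)]
    have := norm_inn_apply X
    linarith
  · rw [hf]
    have h2 : HasFDerivAt (fun Y : E => (2 : ℝ) • inn Y)
        ((2 : ℝ) • (inn : E →L[ℝ] E →L[ℝ] ℝ)) X :=
      (inn_hasFDerivAt X).fun_const_smul (2 : ℝ)
    have h3 : ‖(2 : ℝ) • (inn : E →L[ℝ] E →L[ℝ] ℝ)‖ ≤ 4 := by
      refine ContinuousLinearMap.opNorm_le_bound _ (by norm_num) (fun Y => ?_)
      show ‖(2 : ℝ) • inn Y‖ ≤ 4 * ‖Y‖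
      rw [norm_smul, Real.norm_of_nonneg (by norm_num)]
      have := norm_inn_apply Y
      have := norm_nonneg Y
      linarith
    rw [h2.fderiv]
    exact h3

/-- Solid harmonics with axis `e`. -/
noncomputable def Sk (e : E) : ℕ → E → ℝ
  | 0, _ => 1
  | 1, X => inner ℝ e X
  | k + 2, X => 1 / ((k : ℝ) + 2) *
      ((2 * (k : ℝ) + 3) * (inner ℝ e X * Sk e (k + 1) X) - ((k : ℝ) + 1) * (‖X‖ ^ 2 * Sk e k X))

lemma Sk_rec (e : E) (k : ℕ) (X : E) : Sk e (k + 2) X = 1 / ((k : ℝ) + 2) *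
      ((2 * (k : ℝ) + 3) * (inner ℝ e X * Sk e (k + 1) X) - ((k : ℝ) + 1) * (‖X‖ ^ 2 * Sk e k X)) := by
  rw [Sk]

lemma cb_Sk {e : E} (he : ‖e‖ ≤ 1) (k : ℕ) : CB (Sk e k) (17 ^ k) := by
  have : CB (Sk e k) (17 ^ k) ∧ CB (Sk e (k + 1)) (17 ^ (k + 1)) := by
    induction k with
    | zero =>
        constructor
        · have e : Sk e 0 = fun _ => (1 : ℝ) := by ext X; rw [Sk]
          rw [e]
          exact cb_one.mono (by norm_num)
        · have e : Sk e (0 + 1) = fun X : E => inner ℝ e X := by ext X; rw [Sk]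
          rw [e]
          exact (cb_inner he).mono (by norm_num)
    | succ k ih =>
        refine ⟨ih.2, ?_⟩
        have h1 := (((cb_inner he).mul ih.2).const_mul ((2 * (k : ℝ) + 3) / ((k : ℝ) + 2))).add
          ((cb_normsq.mul ih.1).const_mul (-(((k : ℝ) + 1) / ((k : ℝ) + 2))))
        have e : Sk e (k + 1 + 1) = fun X : E =>
            (2 * (k : ℝ) + 3) / ((k : ℝ) + 2) * (inner ℝ e X * Sk e (k + 1) X) +
            -(((k : ℝ) + 1) / ((k : ℝ) + 2)) * (‖X‖ ^ 2 * Sk e k X) := by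
          ext X
          rw [show k + 1 + 1 = k + 2 from rfl, Sk_rec]
          ring
        rw [e]
        refine h1.mono ?_
        have hk : (0 : ℝ) < (k : ℝ) + 2 := by positivity
        have a1 : |(2 * (k : ℝ) + 3) / ((k : ℝ) + 2)| ≤ 2 := by
          rw [abs_of_nonneg (by positivity), div_le_iff₀ hk]
          linarith
        have a2 : |-(((k : ℝ) + 1) / ((k : ℝ) + 2))| ≤ 1 := by
          rw [abs_neg, abs_of_nonneg (by positivity), div_le_one hk]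
          linarith
        have b1 : (0 : ℝ) < 17 ^ k := by positivity
        have b2 : (17 : ℝ) ^ (k + 1) = 17 * 17 ^ k := by ring
        have b3 : (17 : ℝ) ^ (k + 1 + 1) = 289 * 17 ^ k := by ring
        rw [b3, b2]
        have c1 : |(2 * (k : ℝ) + 3) / ((k : ℝ) + 2)| * (4 * 2 * (17 * 17 ^ k)) ≤
            2 * (4 * 2 * (17 * 17 ^ k)) := by gcongr
        have c2 : |-(((k : ℝ) + 1) / ((k : ℝ) + 2))| * (4 * 4 * 17 ^ k) ≤
            1 * (4 * 4 * 17 ^ k) := by gcongr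
        linarith
  exact this.1

/-- `gk k (‖X‖²)`. -/
noncomputable def Gk (k : ℕ) (X : E) : ℝ := gk k (‖X‖ ^ 2)

lemma Gk_hasFDerivAt (k : ℕ) (X : E) : HasFDerivAt (Gk k) (-(Gk (k + 1) X) • inn X) X := by
  have h2 := (gk_deriv k (‖X‖ ^ 2)).comp_hasFDerivAt X (normsq_hasFDerivAt X)
  refine h2.congr_fderiv ?_
  rw [smul_smul]
  congr 1
  unfold Gk
  ring

lemma fderiv_Gk (k : ℕ) : fderiv ℝ (Gk (E := E) k) = fun X => -(Gk (k + 1) X) • inn X := by
  ext1 X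
  exact (Gk_hasFDerivAt k X).fderiv

lemma contDiff_Gk (k : ℕ) : ContDiff ℝ 2 (Gk (E := E) k) := by
  have c0 : ∀ k, Continuous (Gk (E := E) k) := fun k =>
    continuous_iff_continuousAt.2 fun X => (Gk_hasFDerivAt k X).continuousAt
  have hin : ContDiff ℝ 2 (fun X : E => inn X) :=
    (inn : E →L[ℝ] E →L[ℝ] ℝ).contDiff
  have c1 : ∀ k, ContDiff ℝ 1 (Gk (E := E) k) := by
    intro k
    rw [contDiff_one_iff_fderiv]
    refine ⟨fun X => (Gk_hasFDerivAt k X).differentiableAt, ?_⟩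
    rw [fderiv_Gk]
    exact (c0 (k + 1)).neg.smul hin.continuous
  have h2 : (2 : WithTop ℕ∞) = 1 + 1 := by norm_num
  rw [h2, contDiff_succ_iff_fderiv]
  refine ⟨fun X => (Gk_hasFDerivAt k X).differentiableAt, by simp, ?_⟩
  rw [fderiv_Gk]
  exact (c1 (k + 1)).neg.smul (hin.of_le (by norm_num))

lemma Gk_abs (k : ℕ) {X : E} (hX : X ∈ Metric.ball (0 : E) 2) : |Gk k X| ≤ 8 / df k := by
  have h2 : ‖X‖ < 2 := by simpa using hX
  unfold Gk
  refine (gk_abs k _).trans ?_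
  have h3 : |‖X‖ ^ 2| / 2 ≤ 2 := by
    rw [abs_of_nonneg (by positivity)]
    nlinarith [norm_nonneg X]
  have h4 : Real.exp (|‖X‖ ^ 2| / 2) ≤ 8 := by
    refine (Real.exp_le_exp.2 h3).trans ?_
    have e : Real.exp 2 = Real.exp 1 * Real.exp 1 := by rw [← Real.exp_add]; norm_num
    have := Real.exp_one_lt_d9
    have h0 := Real.exp_pos 1
    rw [e]
    nlinarith
  have := df_pos k
  gcongr

lemma cb_Gk (k : ℕ) : CB (Gk (E := E) k) (48 / df k) := by
  have d0 := df_pos k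
  have d1 : 8 / df (k + 1) ≤ 8 / df k := by
    have := df_le k 1
    gcongr
  have d2 : 8 / df (k + 1 + 1) ≤ 8 / df k := by
    have := df_le k 2
    rw [show k + 1 + 1 = k + 2 from rfl]
    gcongr
  have d3 : 48 / df k = 6 * (8 / df k) := by ring
  have d4 : 0 < 8 / df k := by positivity
  refine cb_of (contDiff_Gk k) ?_ ?_ ?_ <;> intro X hX
  · have := Gk_abs k hX
    rw [d3]; linarith
  · rw [fderiv_Gk]
    show ‖-(Gk (k + 1) X) • inn X‖ ≤ _
    rw [norm_smul, norm_neg, Real.norm_eq_abs, d3]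
    have a1 := Gk_abs (k + 1) hX
    have h2 : ‖X‖ < 2 := by simpa using hX
    have a3 := norm_inn_apply X
    have a4 := abs_nonneg (Gk (k + 1) X)
    have a5 : |Gk (k + 1) X| * ‖inn X‖ ≤ |Gk (k + 1) X| * 2 := by
      gcongr
      linarith
    linarith
  · rw [fderiv_Gk]
    have h := (Gk_hasFDerivAt (k + 1) X).neg.smul (inn_hasFDerivAt X)
    have h' : fderiv ℝ (fun X => -(Gk (k + 1) X) • inn X) X =
        (-(Gk (k + 1) X)) • (inn : E →L[ℝ] E →L[ℝ] ℝ) +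
          (-(-(Gk (k + 1 + 1) X) • inn X)).smulRight (inn X) := h.fderiv
    rw [h']
    have a1 := Gk_abs (k + 1) hX
    have a2 := Gk_abs (k + 1 + 1) hX
    have h2 : ‖X‖ < 2 := by simpa using hX
    have b2 := abs_nonneg (Gk (k + 1) X)
    have b3 := abs_nonneg (Gk (k + 1 + 1) X)
    have b4 := norm_nonneg X
    have b5 := norm_inn_apply X
    refine ContinuousLinearMap.opNorm_le_bound _ (by positivity) (fun Y => ?_)
    have e : ((-(Gk (k + 1) X)) • (inn : E →L[ℝ] E →L[ℝ] ℝ) +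
          (-(-(Gk (k + 1 + 1) X) • inn X)).smulRight (inn X)) Y =
        (-(Gk (k + 1) X)) • inn Y + (Gk (k + 1 + 1) X * inner ℝ X Y) • inn X := by
      ext v
      simp [inn_apply]
    rw [e]
    refine (norm_add_le _ _).trans ?_
    rw [norm_smul, norm_smul, norm_neg, Real.norm_eq_abs, norm_mul, Real.norm_eq_abs,
      Real.norm_eq_abs]
    have f1 := norm_inn_apply Y
    have f2 := abs_real_inner_le_norm X Y
    have f3 := norm_nonneg Y
    have c1 : |Gk (k + 1) X| * ‖inn Y‖ ≤ (8 / df k) * ‖Y‖ := by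
      have : |Gk (k + 1) X| ≤ 8 / df k := a1.trans d1
      gcongr
    have c2 : |Gk (k + 1 + 1) X| * |inner ℝ X Y| * ‖inn X‖ ≤ (8 / df k) * (2 * ‖Y‖) * 2 := by
      have g1 : |Gk (k + 1 + 1) X| ≤ 8 / df k := a2.trans d2
      have g2 : |inner ℝ X Y| ≤ 2 * ‖Y‖ := by nlinarith
      have g3 : ‖inn X‖ ≤ 2 := by linarith
      gcongr
    rw [d3]
    nlinarith

/-- The axially symmetric regular solutions. -/
noncomputable def psiE (e : E) (k : ℕ) (X : E) : ℝ := Gk k X * Sk e k X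

lemma cb_psiE {e : E} (he : ‖e‖ ≤ 1) (k : ℕ) : CB (psiE e k) (192 * 17 ^ k / df k) := by
  have := (cb_Gk (E := E) k).mul (cb_Sk he k)
  refine this.mono (le_of_eq ?_)
  ring

section gen
variable {F : Type*} [NormedAddCommGroup F] [NormedSpace ℝ F] [CompleteSpace F]

lemma zero_mem_ball2 : (0 : E) ∈ Metric.ball (0 : E) 2 := by
  rw [mem_ball_zero_iff, norm_zero]
  norm_num

lemma gen_sum {g : ℕ → (E →L[ℝ] F)} {N : ℕ → ℝ} (hN : Summable N) (h : ∀ k, ‖g k‖ ≤ N k) :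
    Summable g := Summable.of_norm_bounded hN h

lemma gen_d {g : ℕ → E → F} {g' : ℕ → E → (E →L[ℝ] F)} {N : ℕ → ℝ} (hN : Summable N)
    (h1 : ∀ k, ∀ Y ∈ Metric.ball (0 : E) 2, HasFDerivAt (g k) (g' k Y) Y)
    (h2 : ∀ k, ∀ Y ∈ Metric.ball (0 : E) 2, ‖g' k Y‖ ≤ N k)
    (h0 : Summable (fun k => g k 0)) {X : E} (hX : X ∈ Metric.ball (0 : E) 2) :
    HasFDerivAt (fun Y => ∑' k, g k Y) (∑' k, g' k X) X :=
  hasFDerivAt_tsum_of_isPreconnected hN Metric.isOpen_ball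
    (convex_ball (0 : E) 2).isPreconnected h1 h2 zero_mem_ball2 h0 hX

lemma gen_c {g : ℕ → E → (E →L[ℝ] F)} {N : ℕ → ℝ} (hN : Summable N)
    (h1 : ∀ k, Continuous (g k))
    (h2 : ∀ k, ∀ Y ∈ Metric.ball (0 : E) 2, ‖g k Y‖ ≤ N k) :
    ContinuousOn (fun X => ∑' k, g k X) (Metric.ball (0 : E) 2) :=
  continuousOn_tsum (fun k => (h1 k).continuousOn) hN h2

lemma gen_app {g : ℕ → (E →L[ℝ] F)} {L : E →L[ℝ] F} (h : HasSum g L) (v : E) :
    HasSum (fun k => g k v) (L v) := h.mapL (ContinuousLinearMap.apply ℝ F v)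

end gen

lemma ser_sum0 {f : ℕ → E → ℝ} {N : ℕ → ℝ} (hf : ∀ k, CB (f k) (N k)) (hN : Summable N)
    {X : E} (hX : X ∈ Metric.ball (0 : E) 2) : Summable (fun k => f k X) :=
  Summable.of_norm_bounded hN fun k => by rw [Real.norm_eq_abs]; exact (hf k).val hX

lemma ser_sum1 {f : ℕ → E → ℝ} {N : ℕ → ℝ} (hf : ∀ k, CB (f k) (N k)) (hN : Summable N)
    {X : E} (hX : X ∈ Metric.ball (0 : E) 2) : Summable (fun k => fderiv ℝ (f k) X) :=
  gen_sum (F := ℝ) hN (fun k => (hf k).der hX)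

lemma ser_sum2 {f : ℕ → E → ℝ} {N : ℕ → ℝ} (hf : ∀ k, CB (f k) (N k)) (hN : Summable N)
    {X : E} (hX : X ∈ Metric.ball (0 : E) 2) :
    Summable (fun k => fderiv ℝ (fderiv ℝ (f k)) X) :=
  gen_sum (F := E →L[ℝ] ℝ) hN (fun k => (hf k).der2 hX)

lemma ser_d1 {f : ℕ → E → ℝ} {N : ℕ → ℝ} (hf : ∀ k, CB (f k) (N k)) (hN : Summable N)
    {X : E} (hX : X ∈ Metric.ball (0 : E) 2) :
    HasFDerivAt (fun Y => ∑' k, f k Y) (∑' k, fderiv ℝ (f k) X) X := by
  have h1 : ∀ k, ∀ Y ∈ Metric.ball (0 : E) 2, HasFDerivAt (f k) (fderiv ℝ (f k) Y) Y :=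
    fun k Y _ => (((hf k).cd.differentiable (by norm_num)) Y).hasFDerivAt
  have h2 : ∀ k, ∀ Y ∈ Metric.ball (0 : E) 2, ‖fderiv ℝ (f k) Y‖ ≤ N k := fun k Y hY =>
    (hf k).der hY
  exact gen_d (F := ℝ) hN h1 h2 (ser_sum0 hf hN zero_mem_ball2) hX

lemma ser_d2 {f : ℕ → E → ℝ} {N : ℕ → ℝ} (hf : ∀ k, CB (f k) (N k)) (hN : Summable N)
    {X : E} (hX : X ∈ Metric.ball (0 : E) 2) :
    HasFDerivAt (fun Y => ∑' k, fderiv ℝ (f k) Y) (∑' k, fderiv ℝ (fderiv ℝ (f k)) X) X := by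
  have h1 : ∀ k, ∀ Y ∈ Metric.ball (0 : E) 2,
      HasFDerivAt (fderiv ℝ (f k)) (fderiv ℝ (fderiv ℝ (f k)) Y) Y := fun k Y _ => by
    have h : ContDiff ℝ 1 (fderiv ℝ (f k)) := (hf k).cd.fderiv_right (by norm_num)
    exact ((h.differentiable (by norm_num)) Y).hasFDerivAt
  have h2 : ∀ k, ∀ Y ∈ Metric.ball (0 : E) 2, ‖fderiv ℝ (fderiv ℝ (f k)) Y‖ ≤ N k :=
    fun k Y hY => (hf k).der2 hY
  exact gen_d (F := E →L[ℝ] ℝ) hN h1 h2 (ser_sum1 hf hN zero_mem_ball2) hX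

lemma ser_c {f : ℕ → E → ℝ} {N : ℕ → ℝ} (hf : ∀ k, CB (f k) (N k)) (hN : Summable N) :
    ContinuousOn (fun X => ∑' k, fderiv ℝ (fderiv ℝ (f k)) X) (Metric.ball (0 : E) 2) := by
  have h1 : ∀ k, Continuous (fderiv ℝ (fderiv ℝ (f k))) := fun k => by
    have h1 : ContDiff ℝ 1 (fderiv ℝ (f k)) := (hf k).cd.fderiv_right (by norm_num)
    exact h1.continuous_fderiv (by norm_num)
  exact gen_c (F := E →L[ℝ] ℝ) hN h1 (fun k X hX => (hf k).der2 hX)

/-- A series with summable `C²` bounds on the ball of radius two is `C²` there. -/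
theorem series_c2 {f : ℕ → E → ℝ} {N : ℕ → ℝ} (hf : ∀ k, CB (f k) (N k)) (hN : Summable N) :
    ContDiffOn ℝ 2 (fun X => ∑' k, f k X) (Metric.ball (0 : E) 2) := by
  have hBo : IsOpen (Metric.ball (0 : E) 2) := Metric.isOpen_ball
  have e0 : ContDiffOn ℝ 0 (fun X => ∑' k, fderiv ℝ (fderiv ℝ (f k)) X)
      (Metric.ball (0 : E) 2) := contDiffOn_zero.2 (ser_c hf hN)
  have e1 : ContDiffOn ℝ 1 (fun X => ∑' k, fderiv ℝ (f k) X) (Metric.ball (0 : E) 2) := by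
    have h1 : (1 : WithTop ℕ∞) = 0 + 1 := by norm_num
    rw [h1, contDiffOn_succ_iff_fderiv_of_isOpen hBo]
    refine ⟨fun X hX => (ser_d2 hf hN hX).differentiableAt.differentiableWithinAt, by simp, ?_⟩
    exact e0.congr (fun X hX => (ser_d2 hf hN hX).fderiv)
  have h2 : (2 : WithTop ℕ∞) = 1 + 1 := by norm_num
  rw [h2, contDiffOn_succ_iff_fderiv_of_isOpen hBo]
  refine ⟨fun X hX => (ser_d1 hf hN hX).differentiableAt.differentiableWithinAt, by simp, ?_⟩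
  exact e1.congr (fun X hX => (ser_d1 hf hN hX).fderiv)

lemma ser_dd {f : ℕ → E → ℝ} {N : ℕ → ℝ} (hf : ∀ k, CB (f k) (N k)) (hN : Summable N)
    {X : E} (hX : X ∈ Metric.ball (0 : E) 2) :
    fderiv ℝ (fderiv ℝ (fun X => ∑' k, f k X)) X = ∑' k, fderiv ℝ (fderiv ℝ (f k)) X := by
  have ev1 : fderiv ℝ (fun Y => ∑' k, f k Y) =ᶠ[𝓝 X] fun Y => ∑' k, fderiv ℝ (f k) Y := by
    filter_upwards [Metric.isOpen_ball.mem_nhds hX] with Y hY
    exact (ser_d1 hf hN hY).fderiv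
  rw [ev1.fderiv_eq, (ser_d2 hf hN hX).fderiv]

/-- Second derivatives are computed termwise. -/
theorem series_dd {f : ℕ → E → ℝ} {N : ℕ → ℝ} (hf : ∀ k, CB (f k) (N k)) (hN : Summable N)
    {X : E} (hX : X ∈ Metric.ball (0 : E) 2) (v : E) :
    HasSum (fun k => fderiv ℝ (fderiv ℝ (f k)) X v v)
      (fderiv ℝ (fderiv ℝ (fun X => ∑' k, f k X)) X v v) := by
  rw [ser_dd hf hN hX]
  have h1 : HasSum (fun k => fderiv ℝ (fderiv ℝ (f k)) X)
      (∑' k, fderiv ℝ (fderiv ℝ (f k)) X) := (ser_sum2 hf hN hX).hasSum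
  exact gen_app (F := ℝ) (gen_app (F := E →L[ℝ] ℝ) h1 v) v

end abs

/-- The axis. -/
noncomputable def axis : E3 := EuclideanSpace.single 2 (1 : ℝ)

lemma norm_axis : ‖axis‖ = 1 := by simp [axis]

lemma inner_axis (X : E3) : inner ℝ axis X = X 2 := by
  simp [axis, EuclideanSpace.inner_single_left]

/-- `S_k = ‖X‖ ^ k P_k (X₂ / ‖X‖)`. -/
lemma Sk_eq (k : ℕ) (X : E3) (hX : X ≠ 0) : Sk axis k X = ‖X‖ ^ k * (P k).eval (xx X) := by
  have hn : ‖X‖ ≠ 0 := norm_ne_zero_iff.2 hX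
  have h2 : X 2 = xx X * ‖X‖ := (xx_mul_rr (X := X)).symm
  have : Sk axis k X = ‖X‖ ^ k * (P k).eval (xx X) ∧
      Sk axis (k + 1) X = ‖X‖ ^ (k + 1) * (P (k + 1)).eval (xx X) := by
    induction k with
    | zero =>
        constructor
        · rw [Sk, Pool.Agent.H27.Leg.P_zero]; simp
        · rw [zero_add, Sk, Pool.Agent.H27.Leg.P_one, inner_axis, h2]
          simp only [pow_one, eval_X]
          ring
    | succ k ih =>
        refine ⟨ih.2, ?_⟩
        rw [show k + 1 + 1 = k + 2 from rfl, Sk_rec, ih.1, ih.2]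
        have h := rec_eval k (xx X)
        rw [inner_axis, h2]
        have hk : (k : ℝ) + 2 ≠ 0 := by positivity
        have h3 : (P (k + 2)).eval (xx X) = 1 / ((k : ℝ) + 2) *
            ((2 * (k : ℝ) + 3) * xx X * (P (k + 1)).eval (xx X) - ((k : ℝ) + 1) * (P k).eval (xx X)) := by
          rw [← h]; field_simp
        rw [h3]
        ring
  exact this.1

/-- The axially symmetric regular solutions. -/
noncomputable def psi (k : ℕ) : E3 → ℝ := psiE axis k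

lemma cb_psi (k : ℕ) : CB (psi k) (192 * 17 ^ k / df k) := cb_psiE norm_axis.le k

lemma psi_eq (k : ℕ) {X : E3} (hX : X ≠ 0) : psi k X = jl k ‖X‖ * (P k).eval (xx X) := by
  unfold psi psiE Gk
  rw [Sk_eq k X hX, jl_eq k (norm_pos_iff.2 hX)]
  ring

/-- The jet of `j_k (r) P_k (x)`. -/
lemma jet_psi (k : ℕ) : Jet (fun z => jl k z.1 * (P k).eval z.2)
    (fun z => djl k z.1 * (P k).eval z.2)
    (fun z => jl k z.1 * (derivative (P k)).eval z.2)
    (fun z => ((((k : ℝ) * (k + 1) - z.1 ^ 2) * jl k z.1 - 2 * z.1 * djl k z.1) / z.1 ^ 2) * (P k).eval z.2)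
    (fun z => djl k z.1 * (derivative (P k)).eval z.2)
    (fun z => djl k z.1 * (derivative (P k)).eval z.2)
    (fun z => jl k z.1 * (derivative (derivative (P k))).eval z.2) {z | 0 < z.1} := by
  have hp : ∀ (Q : ℝ[X]) (z : ℝ × ℝ), HasFDerivAt (fun w : ℝ × ℝ => Q.eval w.2)
      (lin 0 ((derivative Q).eval z.2)) z := by
    intro Q z
    have h1 := (Q.hasDerivAt z.2).comp_hasFDerivAt z (hasFDerivAt_snd (𝕜 := ℝ) (p := z))
    refine h1.congr_fderiv ?_
    ext <;> simp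
  have hg : ∀ (g : ℝ → ℝ) (g' : ℝ) (z : ℝ × ℝ), HasDerivAt g g' z.1 →
      HasFDerivAt (fun w : ℝ × ℝ => g w.1) (lin g' 0) z := by
    intro g g' z h
    have h1 := h.comp_hasFDerivAt z (hasFDerivAt_fst (𝕜 := ℝ) (p := z))
    refine h1.congr_fderiv ?_
    ext <;> simp
  have hd : ∀ t : ℝ, 0 < t → HasDerivAt (djl k)
      ((((k : ℝ) * (k + 1) - t ^ 2) * jl k t - 2 * t * djl k t) / t ^ 2) t := by
    intro t ht
    have h1 := jl_ode k ht
    have h2 := h1.div (hasDerivAt_pow 2 t) (pow_ne_zero 2 ht.ne')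
    have h3 : HasDerivAt (djl k) ((((k : ℝ) * (k + 1) - t ^ 2) * jl k t * t ^ 2 -
        t ^ 2 * djl k t * ((2 : ℕ) * t ^ (2 - 1))) / (t ^ 2) ^ 2) t := by
      refine h2.congr_of_eventuallyEq ?_
      filter_upwards [lt_mem_nhds ht] with y hy
      show djl k y = y ^ 2 * djl k y / y ^ 2
      field_simp
    refine h3.congr_deriv ?_
    field_simp
    ring
  constructor
  · intro z hz
    refine ((hg _ _ z (jl_deriv k hz)).mul (hp (P k) z)).congr_fderiv ?_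
    ext <;> simp <;> ring
  · intro z hz
    refine ((hg _ _ z (hd z.1 hz)).mul (hp (P k) z)).congr_fderiv ?_
    ext <;> simp <;> ring
  · intro z hz
    refine ((hg _ _ z (jl_deriv k hz)).mul (hp (derivative (P k)) z)).congr_fderiv ?_
    ext <;> simp <;> ring

/-- The Helmholtz equation away from the origin. -/
lemma lap_psi_ne (k : ℕ) {X : E3} (hX : X ≠ 0) :
    (∑ i : Fin 3, fderiv ℝ (fderiv ℝ (psi k)) X (EuclideanSpace.single i (1 : ℝ))
      (EuclideanSpace.single i (1 : ℝ))) + psi k X = 0 := by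
  have hev : psi k =ᶠ[𝓝 X] fun Y => (fun z : ℝ × ℝ => jl k z.1 * (P k).eval z.2) (rr Y, xx Y) := by
    filter_upwards [isOpen_ne.mem_nhds hX] with Y hY
    exact psi_eq k hY
  have e1 := hev.fderiv (𝕜 := ℝ)
  rw [e1.fderiv_eq, hev.eq_of_nhds]
  have hS : IsOpen {z : ℝ × ℝ | 0 < z.1} := isOpen_lt continuous_const continuous_fst
  have hr : 0 < rr X := norm_pos_iff.2 hX
  rw [lap_comp hS (jet_psi k) hX hr]
  have h := ode_eval k (xx X)
  simp only
  generalize (P k).eval (xx X) = p at *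
  generalize (derivative (P k)).eval (xx X) = p1 at *
  generalize (derivative (derivative (P k))).eval (xx X) = p2 at *
  field_simp
  linear_combination (jl k (rr X)) * h

end Pool.Agent.H31.SG
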